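import Pool.Agent.H.MP_f42450_an.B
import Pool.Agent.H.MP_9e511b_an.A

namespace Pool.Agent.H.MP_e9cdae_an

open Set Metric MeasureTheory Filter Topology
open scoped ENNReal NNReal RealInnerProductSpace ContDiff

abbrev E := EuclideanSpace ℝ (Fin 2)

instance f4 : Fact ((1 : ℝ≥0∞) ≤ 4) := ⟨by norm_num⟩

noncomputable abbrev V := Lp E 4 (volume : Measure E)

lemma i4 (g : V) : Integrable (fun x => ‖g x‖ ^ 4) := by
  have h : MemLp g ((4 : ℕ) : ℝ≥0∞) volume := by simpa using Lp.memLp g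
  exact h.integrable_norm_pow (by norm_num)

lemma n4 (g : V) : ‖g‖ ^ 4 = ∫ x, ‖g x‖ ^ 4 := by
  rw [Lp.norm_def, (Lp.memLp g).eLpNorm_eq_integral_rpow_norm (by norm_num) (by norm_num)]
  have h0 : 0 ≤ ∫ x, ‖g x‖ ^ 4 := integral_nonneg fun _ => by positivity
  have h4 : (4 : ℝ≥0∞).toReal = ((4 : ℕ) : ℝ) := by norm_num
  simp only [h4, Real.rpow_natCast]
  rw [ENNReal.toReal_ofReal (by positivity), Real.rpow_inv_natCast_pow h0 (by norm_num)]

lemma two4 (g h : V) (A B : ℝ) (H : ∀ a b : E, ‖a + b‖ ^ 4 + ‖a - b‖ ^ 4 ≤ A * ‖a‖ ^ 4 + B * ‖b‖ ^ 4) :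
    ‖g + h‖ ^ 4 + ‖g - h‖ ^ 4 ≤ A * ‖g‖ ^ 4 + B * ‖h‖ ^ 4 := by
  simp only [n4]
  rw [← integral_add (i4 _) (i4 _), ← integral_const_mul, ← integral_const_mul,
    ← integral_add ((i4 _).const_mul _) ((i4 _).const_mul _)]
  refine integral_mono_ae ((i4 _).add (i4 _)) (((i4 _).const_mul _).add ((i4 _).const_mul _)) ?_
  filter_upwards [Lp.coeFn_add g h, Lp.coeFn_sub g h] with x h1 h2
  rw [h1, h2]
  exact H _ _

lemma alg (a b : E) : ‖a + b‖ ^ 4 + ‖a - b‖ ^ 4 ≤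
    2 * ‖a‖ ^ 4 + 12 * (‖a‖ ^ 2 * ‖b‖ ^ 2) + 2 * ‖b‖ ^ 4 := by
  have h1 := norm_add_sq_real a b
  have h2 := norm_sub_sq_real a b
  have h3 : ⟪a, b⟫ ^ 2 ≤ (‖a‖ * ‖b‖) ^ 2 := sq_le_sq' (neg_le_of_abs_le (abs_real_inner_le_norm a b))
    (real_inner_le_norm a b)
  have h4 : ‖a + b‖ ^ 4 = (‖a + b‖ ^ 2) ^ 2 := by ring
  have h5 : ‖a - b‖ ^ 4 = (‖a - b‖ ^ 2) ^ 2 := by ring
  rw [h4, h5, h1, h2]
  nlinarith

lemma clark (g h : V) : ‖g + h‖ ^ 4 + ‖g - h‖ ^ 4 ≤ 8 * ‖g‖ ^ 4 + 8 * ‖h‖ ^ 4 :=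
  two4 g h 8 8 fun a b => (alg a b).trans (by nlinarith [sq_nonneg (‖a‖ ^ 2 - ‖b‖ ^ 2)])

lemma var (g a : V) {A t ε : ℝ} (hg : ‖g‖ ≤ 1) (ha : ‖a‖ ≤ A) (hA : 1 ≤ A) (ht : 0 < t) (ht1 : t ≤ 1)
    (hε : 0 ≤ ε) (hε1 : ε ≤ 1) (h : 1 - ε ≤ ‖g - t • a‖) :
    ‖g + t • a‖ ≤ 1 + 14 * A ^ 4 * t ^ 2 + 4 * ε := by
  have h1 := two4 g (t • a) (2 + 6 * t ^ 2) (6 / t ^ 2 + 2) fun a b => (alg a b).trans (by
    have h2 : 0 ≤ 6 / t ^ 2 * (t ^ 2 * ‖a‖ ^ 2 - ‖b‖ ^ 2) ^ 2 := by positivity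
    have h3 : 6 / t ^ 2 * (t ^ 2 * ‖a‖ ^ 2 - ‖b‖ ^ 2) ^ 2 =
      6 * t ^ 2 * ‖a‖ ^ 4 - 12 * (‖a‖ ^ 2 * ‖b‖ ^ 2) + 6 / t ^ 2 * ‖b‖ ^ 4 := by field_simp; ring
    nlinarith)
  rw [norm_smul, Real.norm_of_nonneg ht.le, mul_pow] at h1
  have h2 : (6 / t ^ 2 + 2) * (t ^ 4 * ‖a‖ ^ 4) = (6 * t ^ 2 + 2 * t ^ 2 * t ^ 2) * ‖a‖ ^ 4 := by
    field_simp
  have h3 : ‖g‖ ^ 4 ≤ 1 := pow_le_one₀ (norm_nonneg _) hg
  have h4 : ‖a‖ ^ 4 ≤ A ^ 4 := pow_le_pow_left₀ (norm_nonneg _) ha 4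
  have h5 : 1 ≤ A ^ 4 := one_le_pow₀ hA
  have h6 : t ^ 2 ≤ 1 := pow_le_one₀ ht.le ht1
  have h7 : 1 - 4 * ε ≤ ‖g - t • a‖ ^ 4 := by
    have := one_add_mul_le_pow (a := -ε) (by linarith) 4
    have h8 := pow_le_pow_left₀ (by linarith) h 4
    push_cast at this
    have h9 : (1 + -ε) = 1 - ε := by ring
    rw [h9] at this
    linarith
  have ht2 : 0 < t ^ 2 := by positivity
  have h8 : (6 * t ^ 2 + 2 * t ^ 2 * t ^ 2) * ‖a‖ ^ 4 ≤ 8 * t ^ 2 * A ^ 4 :=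
    mul_le_mul (by nlinarith) h4 (by positivity) (by positivity)
  have h9 : (2 + 6 * t ^ 2) * ‖g‖ ^ 4 ≤ 2 + 6 * t ^ 2 * A ^ 4 := by nlinarith
  have h10 : ‖g + t • a‖ ^ 4 ≤ 1 + 14 * A ^ 4 * t ^ 2 + 4 * ε := by nlinarith
  by_contra hc
  push Not at hc
  have h11 : 1 ≤ ‖g + t • a‖ := by nlinarith
  have h12 : ‖g + t • a‖ ≤ ‖g + t • a‖ ^ 4 := le_self_pow₀ h11 (by norm_num)
  linarith

def C (u : E → ℝ) : Prop := ContDiff ℝ 1 u ∧ HasCompactSupport u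

lemma ng (u : E → ℝ) (x : E) : ‖gradient u x‖ = ‖fderiv ℝ u x‖ := by
  rw [gradient, LinearIsometryEquiv.norm_map]

lemma C.df {u : E → ℝ} (h : C u) (x : E) : HasFDerivAt u (fderiv ℝ u x) x :=
  (h.1.differentiable (by simp) x).hasFDerivAt

lemma C.mem {u : E → ℝ} (h : C u) : MemLp (gradient u) 4 volume := by
  have hc : Continuous (gradient u) :=
    (InnerProductSpace.toDual ℝ E).symm.continuous.comp (h.1.continuous_fderiv (by simp))
  exact hc.memLp_of_hasCompactSupport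
    ((h.2.fderiv ℝ).comp_left (g := (InnerProductSpace.toDual ℝ E).symm) (map_zero _))

open Classical in
noncomputable def D (u : E → ℝ) : V := if h : MemLp (gradient u) 4 volume then h.toLp _ else 0

lemma C.ae {u : E → ℝ} (h : C u) : D u =ᵐ[volume] gradient u := by
  rw [D, dif_pos h.mem]; exact MemLp.coeFn_toLp _

lemma C.lin {u v : E → ℝ} (hu : C u) (hv : C v) (a b : ℝ) : C fun x => a * u x + b * v x :=
  ⟨(contDiff_const.mul hu.1).add (contDiff_const.mul hv.1), hu.2.mul_left.add hv.2.mul_left⟩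

lemma D_lin {u v : E → ℝ} (hu : C u) (hv : C v) (a b : ℝ) :
    D (fun x => a * u x + b * v x) = a • D u + b • D v := by
  refine Lp.ext ?_
  filter_upwards [(hu.lin hv a b).ae, hu.ae, hv.ae, Lp.coeFn_add (a • D u) (b • D v),
    Lp.coeFn_smul a (D u), Lp.coeFn_smul b (D v)] with x h1 h2 h3 h4 h5 h6
  rw [h1, h4, Pi.add_apply, h5, h6, Pi.smul_apply, Pi.smul_apply, h2, h3, gradient,
    (((hu.df x).const_mul a).fun_add ((hv.df x).const_mul b)).fderiv, map_add, map_smul, map_smul]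
  rfl

lemma C.n4 {u : E → ℝ} (h : C u) : ‖D u‖ ^ 4 = ∫ x, ‖fderiv ℝ u x‖ ^ 4 := by
  rw [MP_e9cdae_an.n4]
  exact integral_congr_ae (h.ae.mono fun x hx => by simp only [hx, ng])

lemma D_mono {u v : E → ℝ} (hu : C u) (hv : C v) (h : ∀ x, ‖fderiv ℝ v x‖ ≤ ‖fderiv ℝ u x‖) :
    ‖D v‖ ≤ ‖D u‖ := by
  refine Lp.norm_le_norm_of_ae_le ?_
  filter_upwards [hu.ae, hv.ae] with x h1 h2
  rw [h1, h2, ng, ng]; exact h x

lemma C.sim {u : E → ℝ} (h : C u) {r : ℝ} (hr : 0 < r) (Q : E ≃ₗᵢ[ℝ] E) (b : E) :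
    C (fun x => u (r • Q x + b)) ∧ ‖D fun x => u (r • Q x + b)‖ = √r * ‖D u‖ := by
  have h1 : C fun x => u (r • Q x + b) := ⟨h.1.comp ((Q.contDiff.const_smul r).add contDiff_const),
    h.2.comp_homeomorph ((Q.toHomeomorph.trans (Homeomorph.smulOfNeZero r hr.ne')).trans
      (Homeomorph.addRight b))⟩
  refine ⟨h1, (pow_left_inj₀ (norm_nonneg _) (by positivity) (by norm_num : 4 ≠ 0)).1 ?_⟩
  have h2 : ∀ x, ‖fderiv ℝ (fun x => u (r • Q x + b)) x‖ = r * ‖fderiv ℝ u (r • Q x + b)‖ := by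
    intro x
    have h3 : HasFDerivAt (fun x => u (r • Q x + b)) _ x := (h.df (r • Q x + b)).comp x
      ((((Q : E →L[ℝ] E).hasFDerivAt (x := x)).const_smul r).add_const b)
    rw [h3.fderiv, ContinuousLinearMap.comp_smul, norm_smul, Real.norm_of_nonneg hr.le]
    congr 1
    exact ContinuousLinearMap.opNorm_comp_linearIsometryEquiv _ Q
  rw [h1.n4, mul_pow, h.n4]
  simp only [h2, mul_pow]
  rw [integral_const_mul, Q.measurePreserving.integral_comp Q.toHomeomorph.measurableEmbedding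
    (fun y => ‖fderiv ℝ u (r • y + b)‖ ^ 4),
    Measure.integral_comp_smul volume (fun y => ‖fderiv ℝ u (y + b)‖ ^ 4) r,
    integral_add_right_eq_self (fun y => ‖fderiv ℝ u y‖ ^ 4)]
  have h4 : √r ^ 4 = r ^ 2 := by
    rw [show √r ^ 4 = (√r ^ 2) ^ 2 by ring, Real.sq_sqrt hr.le]
  rw [h4, finrank_euclideanSpace_fin, abs_of_pos (by positivity), smul_eq_mul]
  field_simp

lemma trunc {η : ℝ} (hη : 0 < η) : ∃ T : ℝ → ℝ, ContDiff ℝ 1 T ∧ (∀ s, |s| ≤ η → T s = 0) ∧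
    (∀ s, |deriv T s| ≤ 1) ∧ ∀ s, |T s - s| ≤ 2 * η := by
  obtain ⟨θ, hθ⟩ : ∃ θ : ℝ → ℝ, θ = fun t => min 1 (max 0 (|t| / η - 1)) := ⟨_, rfl⟩
  have hc : Continuous θ := by rw [hθ]; fun_prop
  have hd : ∀ s, HasDerivAt (fun s => ∫ t in (0 : ℝ)..s, θ t) (θ s) s := fun s =>
    (hc.integral_hasStrictDerivAt 0 s).hasDerivAt
  obtain ⟨T, hT⟩ : ∃ T : ℝ → ℝ, T = fun s => ∫ t in (0 : ℝ)..s, θ t := ⟨_, rfl⟩
  rw [← hT] at hd
  have hT0 : T 0 = 0 := by simp [hT]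
  have h0 : ∀ s, 0 ≤ θ s := fun s => by rw [hθ]; exact le_min zero_le_one (le_max_left _ _)
  have h1 : ∀ s, θ s ≤ 1 := fun s => by rw [hθ]; exact min_le_left _ _
  have hde : deriv T = θ := funext fun s => (hd s).deriv
  have hg : ∀ s, HasDerivAt (fun s => T s - s) (θ s - 1) s := fun s => (hd s).sub (hasDerivAt_id s)
  have mv : ∀ (f f' : ℝ → ℝ) (S : Set ℝ) (B x y : ℝ), Convex ℝ S → (∀ s, HasDerivAt f (f' s) s) →
      (∀ s ∈ S, |f' s| ≤ B) → x ∈ S → y ∈ S → |f y - f x| ≤ B * |y - x| :=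
    fun f f' S B x y hS hf hB hx hy =>
      hS.norm_image_sub_le_of_norm_hasDerivWithin_le (fun s _ => (hf s).hasDerivWithinAt) hB hx hy
  have h2 : ∀ s, |s| ≤ 2 * η → |T s - s| ≤ 2 * η := fun s hs => by
    have := mv _ _ univ 1 0 s convex_univ hg (fun s _ => abs_le.2 ⟨by linarith [h0 s], by linarith [h1 s]⟩)
      trivial trivial
    simp only [hT0, sub_zero, one_mul] at this
    linarith
  have h3 : ∀ s, 2 * η ≤ |s| → |θ s - 1| ≤ 0 := fun s hs => by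
    have : 1 ≤ |s| / η - 1 := by rw [le_sub_iff_add_le, le_div_iff₀ hη]; linarith
    rw [hθ]; simp [this]
  refine ⟨T, contDiff_one_iff_deriv.2 ⟨fun s => (hd s).differentiableAt, hde ▸ hc⟩, fun s hs => ?_,
    fun s => by rw [hde, abs_of_nonneg (h0 s)]; exact h1 s, fun s => ?_⟩
  · have := mv _ _ (Icc (-η) η) 0 0 s (convex_Icc _ _) hd (fun s hs => by
      have : |s| / η - 1 ≤ 0 := by rw [sub_nonpos, div_le_one hη]; exact abs_le.2 hs
      rw [hθ]; simp [this]) ⟨by linarith, hη.le⟩ (abs_le.1 hs)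
    simpa [hT0] using this
  · rcases le_total s (-(2 * η)) with h | h
    · have := mv _ _ (Iic (-(2 * η))) 0 (-(2 * η)) s (convex_Iic _) hg
        (fun s hs => h3 s (le_abs.2 (Or.inr (le_neg.1 hs)))) (mem_Iic.2 le_rfl) h
      rw [zero_mul, abs_nonpos_iff, sub_eq_zero] at this
      rw [this]; exact h2 _ (by rw [abs_neg, abs_of_pos (by positivity)])
    rcases le_total s (2 * η) with h' | h'
    · exact h2 s (abs_le.2 ⟨h, h'⟩)
    · have := mv _ _ (Ici (2 * η)) 0 (2 * η) s (convex_Ici _) hg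
        (fun s hs => h3 s (le_abs.2 (Or.inl hs))) (mem_Ici.2 le_rfl) h'
      rw [zero_mul, abs_nonpos_iff, sub_eq_zero] at this
      rw [this]; exact h2 _ (by rw [abs_of_pos (by positivity)])

lemma C.tr {u : E → ℝ} (h : C u) {η : ℝ} (hη : 0 < η) : ∃ w, C w ∧ ‖D w‖ ≤ ‖D u‖ ∧
    (∀ x, |u x| ≤ η → w x = 0) ∧ ∀ x, |w x - u x| ≤ 2 * η := by
  obtain ⟨T, h1, h2, h3, h4⟩ := trunc hη
  have hw : C (T ∘ u) := ⟨h1.comp h.1, h.2.comp_left (h2 0 (by simpa using hη.le))⟩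
  refine ⟨T ∘ u, hw, D_mono h hw fun x => ?_, fun x hx => h2 _ hx, fun x => h4 _⟩
  rw [((h1.differentiable (by simp) (u x)).hasDerivAt.comp_hasFDerivAt x (h.df x)).fderiv, norm_smul]
  exact mul_le_of_le_one_left (norm_nonneg _) (h3 _)

lemma bump (x : E) {r : ℝ} (hr : 0 < r) : ∃ β, C β ∧ (∀ z, ‖z - x‖ ≤ r → β z = 1) ∧
    ∀ z, 2 * r ≤ ‖z - x‖ → β z = 0 := by
  let φ : ContDiffBump x := ⟨r, 2 * r, hr, by linarith⟩
  exact ⟨φ, ⟨φ.contDiff, φ.hasCompactSupport⟩, fun z hz => φ.one_of_mem_closedBall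
    (mem_closedBall_iff_norm.2 hz), fun z hz => φ.zero_of_le_dist (by rwa [dist_eq_norm])⟩

lemma mor0 : ∃ M : ℝ, ∀ u, C u → ‖D u‖ ≤ 1 → ∀ y : E, ‖y‖ ≤ 1 →
    ∫ z in ball (0 : E) 1, |u z - u y| ≤ M := by
  obtain ⟨β, hβ, h1, -⟩ := bump (0 : E) (r := 2) two_pos
  refine ⟨4 * (volume.real (ball (0 : E) 1) + 1), fun u hu hn y hy => ?_⟩
  have hψ := hu.lin hβ 1 (-u y)
  have h := MP_9e511b_an.small volume 4 (by norm_num) (by simp; norm_num) _ hψ.1 hψ.2 y 0 1 one_pos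
    (by rw [h1 y (by simp; linarith)]; ring) (by simpa using hy) (ball 0 2) measurableSet_ball
    (fun t ht z hz => by
      have h2 : y + t • (z - y) = (1 - t) • y + t • z := by module
      rw [h2]
      exact (convex_ball (0 : E) 2) (mem_ball_zero_iff.2 (by linarith))
        (ball_subset_ball (by norm_num) hz) (by linarith [ht.2]) ht.1.le (by ring)) 1 one_pos
  rw [setIntegral_congr_fun measurableSet_ball (g := fun z => |u z - u y|) (fun z hz => by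
      have := mem_ball_zero_iff.1 hz
      simp only [h1 z (by simp; linarith)]; ring_nf),
    setIntegral_congr_fun (s := ball (0 : E) 2) measurableSet_ball
      (g := fun z => ‖fderiv ℝ u z‖ ^ 4) (fun z hz => by
      have h3 : (fun x => 1 * u x + -u y * β x) =ᶠ[𝓝 z] fun x => u x + -u y := by
        filter_upwards [isOpen_ball.mem_nhds hz] with x hx
        rw [h1 x (by simpa using (mem_ball_zero_iff.1 hx).le)]; ring
      simp only [h3.fderiv_eq, fderiv_add_const]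
      exact_mod_cast rfl)] at h
  have h4 : ∫ z in ball (0 : E) 2, ‖fderiv ℝ u z‖ ^ 4 ≤ 1 := by
    refine (setIntegral_le_integral ?_ (Eventually.of_forall fun _ => by positivity)).trans ?_
    · exact (i4 (D u)).congr (hu.ae.mono fun x hx => by simp only [hx, ng])
    · rw [← hu.n4]; exact pow_le_one₀ (norm_nonneg _) hn
  refine h.trans ?_
  rw [finrank_euclideanSpace_fin]
  norm_num
  linarith

noncomputable def e : E := EuclideanSpace.single 0 1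
noncomputable def f : E := EuclideanSpace.single 1 1

lemma e1 : ‖e‖ = 1 := by simp [e]
lemma f1 : ‖f‖ = 1 := by simp [f]
lemma ef : ⟪e, f⟫ = 0 := by simp [e, f, EuclideanSpace.inner_single_left]

lemma rot {w : E} (hw : ‖w‖ = 1) : ∃ Q : E ≃ₗᵢ[ℝ] E, Q e = w :=
  ⟨_, Submodule.reflection_sub (e1.trans hw.symm)⟩

lemma polar (x y : E) : ∃ w : E, ‖w‖ = 1 ∧ x = y + ‖x - y‖ • w := by
  by_cases h : x = y
  · exact ⟨e, e1, by simp [h]⟩
  · have h1 : ‖x - y‖ ≠ 0 := norm_ne_zero_iff.2 (sub_ne_zero.2 h)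
    exact ⟨‖x - y‖⁻¹ • (x - y), by rw [norm_smul, norm_inv, norm_norm, inv_mul_cancel₀ h1], by
      rw [smul_inv_smul₀ h1, add_sub_cancel]⟩

lemma hom {u : E → ℝ} (hu : C u) {K : Set E} (hK : ∀ z ∈ K, u z = 0) (x y : E) {B : ℝ}
    (h : ∀ v, C v → (∀ z ∈ K, v z = 0) → ‖D v‖ ≤ 1 → v x - v y ≤ B) :
    |u x - u y| ≤ B * ‖D u‖ := by
  have h1 : ∀ a : ℝ, |a| * ‖D u‖ ≤ 1 → a * (u x - u y) ≤ B := fun a ha => by
    have := h _ (hu.lin hu a 0) (fun z hz => by simp [hK z hz])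
      (by rw [D_lin hu hu, zero_smul, add_zero, norm_smul]; exact ha)
    linarith
  rcases (norm_nonneg (D u)).eq_or_lt with h0 | h0
  · rw [← h0, mul_zero, abs_nonpos_iff]
    by_contra hc
    have := h1 ((B + 1) / (u x - u y)) (by rw [← h0]; simp)
    rw [div_mul_cancel₀ _ hc] at this
    linarith
  · have h2 := h1 ‖D u‖⁻¹ (by rw [abs_of_pos (by positivity), inv_mul_cancel₀ h0.ne'])
    have h3 := h1 (-‖D u‖⁻¹) (by rw [abs_neg, abs_of_pos (by positivity), inv_mul_cancel₀ h0.ne'])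
    rw [neg_mul, ← mul_neg] at h3
    rw [inv_mul_le_iff₀ h0, mul_comm] at h2 h3
    exact abs_le.2 ⟨by linarith, h2⟩

lemma mor : ∃ M : ℝ, 0 < M ∧ ∀ u, C u → ∀ x y : E, |u x - u y| ≤ M * √‖x - y‖ * ‖D u‖ := by
  obtain ⟨M, hM⟩ := mor0
  have hv : 0 < volume.real (ball (0 : E) 1) :=
    ENNReal.toReal_pos (measure_ball_pos _ _ one_pos).ne' measure_ball_lt_top.ne
  have h1 : ∀ u, C u → ‖D u‖ ≤ 1 → u e - u 0 ≤ 2 * |M| / volume.real (ball (0 : E) 1) + 1 := by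
    intro u hu hn
    have hi : ∀ y, IntegrableOn (fun z => |u z - u y|) (ball (0 : E) 1) := fun y =>
      (ContinuousOn.integrableOn_compact (isCompact_closedBall (0 : E) 1)
        (Continuous.continuousOn (by have := hu.1.continuous; fun_prop))).mono_set
        ball_subset_closedBall
    have h2 := setIntegral_mono (f := fun _ => u e - u 0) (integrableOn_const measure_ball_lt_top.ne)
      ((hi e).add (hi 0)) fun z => by
        simp only [Pi.add_apply]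
        linarith [le_abs_self (u z - u 0), neg_abs_le (u z - u e)]
    simp only [Pi.add_apply] at h2
    rw [integral_add (hi e) (hi 0), setIntegral_const, smul_eq_mul] at h2
    have h3 := hM u hu hn e e1.le
    have h4 := hM u hu hn 0 (by simp)
    have h5 : u e - u 0 ≤ 2 * |M| / volume.real (ball (0 : E) 1) := by
      rw [le_div_iff₀ hv]; linarith [le_abs_self M]
    linarith
  refine ⟨2 * |M| / volume.real (ball (0 : E) 1) + 1, by positivity, fun u hu x y => ?_⟩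
  by_cases hxy : x = y
  · simp [hxy]
  obtain ⟨w, hw, hx⟩ := polar x y
  obtain ⟨Q, hQ⟩ := rot hw
  obtain ⟨h2, h3⟩ := hu.sim (norm_pos_iff.2 (sub_ne_zero.2 hxy)) Q y
  have h4 := hom h2 (K := ∅) (by simp) e 0 fun v hv _ hn => h1 v hv hn
  rwa [h3, hQ, add_comm, ← hx, map_zero, smul_zero, zero_add, ← mul_assoc] at h4

end Pool.Agent.H.MP_e9cdae_an
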