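import Pool.Agent.H.MP_e9cdae_an.A

namespace Pool.Agent.H.MP_e9cdae_an

open Set Metric MeasureTheory Filter Topology
open scoped ENNReal NNReal RealInnerProductSpace ContDiff

noncomputable def M : ℝ := mor.choose
lemma M0 : 0 < M := mor.choose_spec.1
lemma C.mor {u : E → ℝ} (h : C u) (x y : E) : |u x - u y| ≤ M * √‖x - y‖ * ‖D u‖ :=
  MP_e9cdae_an.mor.choose_spec.2 u h x y

def Ad (K : Set E) (u : E → ℝ) : Prop := C u ∧ (∀ z ∈ K, u z = 0) ∧ ‖D u‖ ≤ 1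

lemma Ad.mor {K : Set E} {u : E → ℝ} (h : Ad K u) (x y : E) : |u x - u y| ≤ M * √‖x - y‖ :=
  (h.1.mor x y).trans (mul_le_of_le_one_right (by have := M0; positivity) h.2.2)

noncomputable def S (K : Set E) (x y : E) : ℝ := sSup {a | ∃ u, Ad K u ∧ u x - u y = a}

lemma ad0 (K : Set E) : Ad K fun _ => 0 := by
  have h : C fun _ => 0 := ⟨contDiff_const, HasCompactSupport.zero⟩
  refine ⟨h, fun _ _ => rfl, ?_⟩
  have := D_lin h h 0 0
  simp only [zero_mul, add_zero, zero_smul] at this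
  simp [this]

lemma Ad.le {K : Set E} {u : E → ℝ} (h : Ad K u) (x y : E) : u x - u y ≤ S K x y :=
  le_csSup ⟨M * √‖x - y‖, by rintro _ ⟨v, hv, rfl⟩; exact (le_abs_self _).trans (hv.mor x y)⟩
    ⟨u, h, rfl⟩

lemma S_le {K : Set E} {x y : E} {B : ℝ} (h : ∀ u, Ad K u → u x - u y ≤ B) : S K x y ≤ B :=
  csSup_le ⟨_, _, ad0 K, rfl⟩ (by rintro _ ⟨v, hv, rfl⟩; exact h v hv)

lemma S0 (K : Set E) (x y : E) : 0 ≤ S K x y := by simpa using (ad0 K).le x y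

lemma le_S {K : Set E} {u : E → ℝ} (hu : C u) (hK : ∀ z ∈ K, u z = 0) (x y : E) :
    |u x - u y| ≤ S K x y * ‖D u‖ :=
  hom hu hK x y fun v h1 h2 h3 => Ad.le ⟨h1, h2, h3⟩ x y

lemma S_ex (K : Set E) (x y : E) {a : ℝ} (h : a < S K x y) : ∃ u, Ad K u ∧ a < u x - u y := by
  obtain ⟨_, ⟨u, hu, rfl⟩, h⟩ := exists_lt_of_lt_csSup
    (s := {a | ∃ u, Ad K u ∧ u x - u y = a}) ⟨_, _, ad0 K, rfl⟩ h
  exact ⟨u, hu, h⟩

lemma S_base {K : Set E} (x : E) {y y' : E} (h : y ∈ K) (h' : y' ∈ K) : S K x y ≤ S K x y' :=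
  S_le fun u hu => by rw [hu.2.1 y h, ← hu.2.1 y' h']; exact hu.le x y'

lemma S_sim {K K' : Set E} {r : ℝ} (hr : 0 < r) (Q : E ≃ₗᵢ[ℝ] E) (b : E)
    (h : ∀ z ∈ K', r • Q z + b ∈ K) (x y : E) :
    S K (r • Q x + b) (r • Q y + b) ≤ S K' x y * √r := S_le fun u hu => by
  obtain ⟨h1, h2⟩ := hu.1.sim hr Q b
  have h3 := le_S h1 (K := K') (fun z hz => hu.2.1 _ (h z hz)) x y
  rw [h2] at h3
  refine (le_abs_self _).trans (h3.trans ?_)
  have := S0 K' x y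
  have := hu.2.2
  gcongr
  exact mul_le_of_le_one_right (Real.sqrt_nonneg _) this

lemma S_cont {K K' : Set E} {δ : ℝ} (hδ : 0 < δ) (h : ∀ z ∈ K', ∃ y ∈ K, ‖z - y‖ ≤ δ) {x x' y y' : E}
    (hx : ‖x - x'‖ ≤ δ) (hy : y ∈ K) (hy' : y' ∈ K') : S K x y ≤ S K' x' y' + 3 * M * √δ :=
  S_le fun u hu => by
  have h0 := M0
  have h1 : ∀ a b : E, ‖a - b‖ ≤ δ → |u a - u b| ≤ M * √δ := fun a b hab =>
    (hu.mor a b).trans (by gcongr)
  obtain ⟨w, hw, h2, h3, h4⟩ := hu.1.tr (η := M * √δ) (by positivity)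
  have h5 : Ad K' w := ⟨hw, fun z hz => by
    obtain ⟨y, hy, hzy⟩ := h z hz
    have := h1 z y hzy
    rw [hu.2.1 y hy, sub_zero] at this
    exact h3 z this, h2.trans hu.2.2⟩
  have h6 := h5.le x' y'
  rw [h5.2.1 y' hy'] at h6
  rw [hu.2.1 y hy]
  linarith [(abs_le.1 (h4 x')).1, (abs_le.1 (h1 x x' hx)).2]

lemma cl (K : Set E) (x y : E) (hc : 0 < S K x y) {ε : ℝ} (hε : 0 < ε) : ∃ η > 0, ∀ u v,
    Ad K u → Ad K v → S K x y - η ≤ u x - u y → S K x y - η ≤ v x - v y → ‖D u - D v‖ ≤ ε := by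
  obtain ⟨c, hcc⟩ : ∃ c, c = S K x y := ⟨_, rfl⟩
  rw [← hcc] at hc ⊢
  obtain ⟨θ, hθ⟩ : ∃ θ, θ = min 1 (ε ^ 4 / 64) := ⟨_, rfl⟩
  have h0 : 0 < θ := hθ ▸ lt_min one_pos (by positivity)
  have h1 : θ ≤ 1 := hθ ▸ min_le_left _ _
  have h2 : θ ≤ ε ^ 4 / 64 := hθ ▸ min_le_right _ _
  refine ⟨c * θ, by positivity, fun u v hu hv h3 h4 => ?_⟩
  have h5 := le_S (hu.1.lin hv.1 1 1) (K := K) (fun z hz => by simp [hu.2.1 z hz, hv.2.1 z hz]) x y
  rw [D_lin hu.1 hv.1, one_smul, one_smul, ← hcc] at h5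
  have h6 : 2 * (1 + -θ) ≤ ‖D u + D v‖ := le_of_mul_le_mul_left
    (le_trans (by linarith) ((le_abs_self _).trans h5)) hc
  have h7 := pow_le_pow_left₀ (by linarith) h6 4
  have h8 := one_add_mul_le_pow (a := -θ) (by linarith) 4
  have h9 := clark (D u) (D v)
  have h10 : ‖D u‖ ^ 4 ≤ 1 := pow_le_one₀ (norm_nonneg _) hu.2.2
  have h11 : ‖D v‖ ^ 4 ≤ 1 := pow_le_one₀ (norm_nonneg _) hv.2.2
  rw [mul_pow] at h7
  push_cast at h8
  exact (pow_le_pow_iff_left₀ (norm_nonneg _) hε.le (by norm_num : 4 ≠ 0)).1 (by linarith)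

noncomputable def c0 : ℝ := S ∅ e 0
noncomputable def c1 (L : ℝ) : ℝ := S {0, L • f} e 0

lemma c0_pos : 0 < c0 := by
  obtain ⟨β, hβ, h1, h2⟩ := bump e (r := 1 / 2) (by norm_num)
  have h := le_S hβ (K := ∅) (by simp) e 0
  rw [h1 e (by simp), h2 0 (by simp [e1])] at h
  refine (S0 _ _ _).lt_of_ne fun h0 => ?_
  rw [← h0] at h
  norm_num at h

lemma C.tl {u : E → ℝ} (h : C u) (b : E) : C (fun x => u (x + b)) ∧ ‖D fun x => u (x + b)‖ = ‖D u‖ := by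
  simpa using h.sim one_pos (LinearIsometryEquiv.refl ℝ E) b

lemma D_sub {u v : E → ℝ} (hu : C u) (hv : C v) :
    C (fun x => u x - v x) ∧ D (fun x => u x - v x) = D u - D v := by
  have h1 := hu.lin hv 1 (-1)
  have h2 := D_lin hu hv 1 (-1)
  simp only [one_mul, neg_mul, ← sub_eq_add_neg, one_smul, neg_smul] at h1 h2
  exact ⟨h1, h2⟩

lemma D_tl {u v : E → ℝ} (hu : C u) (hv : C v) (b : E) :
    ‖D (fun x => u (x + b)) - D (fun x => v (x + b))‖ = ‖D u - D v‖ := by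
  rw [← (D_sub hu hv).2, ← (D_sub (hu.tl b).1 (hv.tl b).1).2]
  exact ((D_sub hu hv).1.tl b).2

lemma far {u : E → ℝ} (hu : C u) : ∃ R > 0, ∀ z : E, R ≤ ‖z‖ → u z = 0 := by
  obtain ⟨R, h0, hR⟩ := hu.2.isCompact.isBounded.subset_ball_lt 0 (0 : E)
  exact ⟨R, h0, fun z hz => image_eq_zero_of_notMem_tsupport fun h =>
    absurd (mem_ball_zero_iff.1 (hR h)) (not_lt.2 hz)⟩

lemma gap {L : ℝ} (hL : 0 < L) : c1 L < c0 := by
  by_contra hc
  push Not at hc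
  have h0 := c0_pos
  have hM := M0
  obtain ⟨η0, hη0, H0⟩ := cl ∅ e 0 h0 (ε := 1 / 4) (by norm_num)
  obtain ⟨v, hv, hv1⟩ := S_ex ∅ e 0 (a := c0 - min η0 (c0 / 4))
    (sub_lt_self _ (lt_min hη0 (by positivity)))
  obtain ⟨R, hR0, hR⟩ := far hv.1
  obtain ⟨k, hk⟩ := exists_nat_gt ((R + 1) / L)
  rw [div_lt_iff₀ hL] at hk
  obtain ⟨η1, hη1, H1⟩ := cl ∅ e 0 h0 (ε := 1 / (4 * (k + 1))) (by positivity)
  obtain ⟨η2, hη2, H2⟩ := cl ∅ e 0 h0 (ε := η1 / (2 * M * √L)) (by positivity)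
  obtain ⟨u, hu, hu1⟩ := S_ex {0, L • f} e 0 (a := c0 - min η0 (min (η1 / 2) η2))
    ((sub_lt_self _ (by positivity)).trans_le hc)
  have m1 := min_le_left η0 (min (η1 / 2) η2)
  have m2 := (min_le_right η0 _).trans (min_le_left (η1 / 2) η2)
  have m3 := (min_le_right η0 _).trans (min_le_right (η1 / 2) η2)
  have m4 := min_le_left η0 (c0 / 4)
  have m5 := min_le_right η0 (c0 / 4)
  have hu' : Ad ∅ u := ⟨hu.1, by simp, hu.2.2⟩
  have u0 : u 0 = 0 := hu.2.1 0 (by simp)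
  have uτ : u (L • f) = 0 := hu.2.1 _ (by simp)
  have r1 : MP_f42450_an.rf e e = -e := by
    rw [MP_f42450_an.rf_apply e1, real_inner_self_eq_norm_sq, e1]; module
  have r2 : MP_f42450_an.rf e (L • f) = L • f := by
    rw [MP_f42450_an.rf_apply e1, inner_smul_right, ef]; simp
  obtain ⟨h1, h2⟩ := hu.1.sim one_pos (MP_f42450_an.rf e) e
  simp only [one_smul, Real.sqrt_one, one_mul] at h1 h2
  have hw : Ad ∅ fun x => -1 * u (MP_f42450_an.rf e x + e) + 0 * u x := ⟨h1.lin hu.1 _ _, by simp, by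
    rw [D_lin h1 hu.1]; simpa [h2] using hu.2.2⟩
  have h3 := H2 _ _ hu' hw (by change c0 - _ ≤ _; linarith) (by
    change c0 - _ ≤ _
    simp only [r1, map_zero, zero_add, neg_add_cancel]; linarith)
  have h4 := (D_sub hu.1 hw.1).1.mor (L • f) 0
  rw [(D_sub hu.1 hw.1).2, sub_zero (L • f), norm_smul, f1, mul_one, Real.norm_of_nonneg hL.le] at h4
  have h5 : M * √L * (η1 / (2 * M * √L)) = η1 / 2 := by field_simp
  replace h4 := h4.trans ((mul_le_mul_of_nonneg_left h3 (by positivity)).trans h5.le)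
  simp only [r2, map_zero, zero_add, u0, uτ] at h4
  have h6 := H1 _ _ ⟨(hu.1.tl (L • f)).1, by simp, (hu.1.tl _).2.trans_le hu.2.2⟩ hu' (by
    change c0 - _ ≤ _
    simp only [zero_add, uτ, add_comm e]
    linarith [(abs_le.1 h4).1]) (by change c0 - _ ≤ _; linarith)
  have h7 : ∀ j : ℕ, ‖D (fun x => u (x + (j * L) • f)) - D u‖ ≤ j * (1 / (4 * (k + 1))) := by
    intro j
    induction j with
    | zero => simp
    | succ j ih =>
      have h8 := D_tl (hu.1.tl (L • f)).1 hu.1 ((j * L) • f)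
      simp only [add_assoc, ← add_smul] at h8
      have h9 := norm_sub_le_norm_sub_add_norm_sub (D fun x => u (x + (j * L + L) • f))
        (D fun x => u (x + (j * L) • f)) (D u)
      push_cast
      rw [add_mul, one_mul, add_mul, one_mul]
      linarith
  have h8 := H0 _ _ hv hu' (by change c0 - _ ≤ _; linarith) (by change c0 - _ ≤ _; linarith)
  have h9 := D_tl hv.1 hu.1 ((k * L) • f)
  have hn : ‖(k * L) • f‖ = k * L := by
    rw [norm_smul, f1, mul_one, Real.norm_of_nonneg (by positivity)]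
  have h10 := le_S (D_sub hv.1 (hv.1.tl ((k * L) • f)).1).1 (K := ∅) (by simp) e 0
  rw [(D_sub hv.1 (hv.1.tl ((k * L) • f)).1).2, hR (0 + (k * L) • f) (by rw [zero_add, hn]; linarith),
    hR (e + (k * L) • f) (by
      have := norm_sub_le (e + (k * L) • f) e
      rw [add_sub_cancel_left, hn, e1] at this
      linarith)] at h10
  have h11 := norm_sub_le_norm_sub_add_norm_sub (D v) (D u) (D fun x => v (x + (k * L) • f))
  have h12 := norm_sub_le_norm_sub_add_norm_sub (D u) (D fun x => u (x + (k * L) • f))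
    (D fun x => v (x + (k * L) • f))
  rw [norm_sub_rev (D u) (D fun x => u (x + (k * L) • f)),
    norm_sub_rev (D fun x => u (x + (k * L) • f)) (D fun x => v (x + (k * L) • f))] at h12
  have h13 : (k : ℝ) * (1 / (4 * (k + 1))) ≤ 1 / 4 := by
    rw [mul_one_div, div_le_div_iff₀ (by positivity) (by norm_num)]; linarith
  have h14 := (le_abs_self _).trans (h10.trans (mul_le_mul_of_nonneg_left
    (show _ ≤ 3 / 4 by linarith [h7 k]) h0.le))
  change _ ≤ c0 * _ at h14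
  linarith

lemma sm (A : ℝ) {ε : ℝ} (hε : 0 < ε) {b : ℝ} (hb : 0 < b) : ∃ r, 0 < r ∧ r ≤ b ∧ A * √r < ε := by
  have h : Tendsto (fun r : ℝ => A * √r) (𝓝[>] 0) (𝓝 (A * √0)) :=
    (Continuous.tendsto (by fun_prop) 0).mono_left nhdsWithin_le_nhds
  rw [Real.sqrt_zero, mul_zero] at h
  obtain ⟨r, h1, h2⟩ := ((h.eventually (gt_mem_nhds hε)).and (Ioc_mem_nhdsGT hb)).exists
  exact ⟨r, h2.1, h2.2, h1⟩

lemma hole {m : ℝ} (hm : m < c0) : ∃ a ρ : ℝ, 0 < a ∧ a ≤ 1 / 4 ∧ 0 < ρ ∧ ρ ≤ 1 / 4 ∧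
    ∀ (K : Set E) (c : E), c ∈ K → (∀ z ∈ K, ‖z - c‖ ≤ ρ ∨ 1 / 2 ≤ ‖z - c‖) →
      m * √a < S K (c + a • e) c := by
  obtain ⟨v, hv, hv1⟩ := S_ex ∅ e 0 hm
  obtain ⟨β, hβ, h1, -⟩ := bump (0 : E) one_pos
  obtain ⟨l, hl⟩ : ∃ l, l = v e - v 0 := ⟨_, rfl⟩
  rw [← hl] at hv1
  obtain ⟨r, hr, hr1, hr2⟩ := sm (|v 0| * ‖D β‖ * ((m + l) / 2)) (ε := (l - m) / 2) (by linarith) one_pos
  obtain ⟨h2, h3⟩ := hβ.sim hr (LinearIsometryEquiv.refl ℝ E) 0
  simp only [LinearIsometryEquiv.coe_refl, id, add_zero] at h2 h3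
  have hw := hv.1.lin h2 1 (-v 0)
  have hw1 : ‖D fun x => 1 * v x + -v 0 * β (r • x)‖ ≤ 1 + |v 0| * (√r * ‖D β‖) := by
    rw [D_lin hv.1 h2]
    refine (norm_add_le _ _).trans ?_
    rw [one_smul, norm_smul, norm_neg, h3, Real.norm_eq_abs]
    linarith [hv.2.2]
  obtain ⟨R, hR0, hR⟩ := far hw
  obtain ⟨a, ha⟩ : ∃ a, a = min (1 / 4) (1 / (2 * R)) := ⟨_, rfl⟩
  have a0 : 0 < a := ha ▸ lt_min (by norm_num) (by positivity)
  have a2 : a * (2 * R) ≤ 1 := (le_div_iff₀ (by positivity)).1 (ha ▸ min_le_right _ _)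
  obtain ⟨ρ, hρ, hρ1, hρ2⟩ := sm (3 * M) (ε := √a * ((l - m) / 2))
    (mul_pos (Real.sqrt_pos.2 a0) (by linarith)) (b := 1 / 4) (by norm_num)
  refine ⟨a, ρ, a0, ha ▸ min_le_left _ _, hρ, hρ1, fun K c hc hK => ?_⟩
  have h4 := S_cont (K := {z | z = c ∨ 1 / 2 ≤ ‖z - c‖}) (K' := K) hρ (fun z hz => by
    rcases hK z hz with h | h
    · exact ⟨c, Or.inl rfl, h⟩
    · exact ⟨z, Or.inr h, by simpa using hρ.le⟩) (x := c + a • e) (x' := c + a • e)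
    (by simpa using hρ.le) (Or.inl rfl) hc
  obtain ⟨h5, h6⟩ := hw.sim (inv_pos.2 a0) (LinearIsometryEquiv.refl ℝ E) (-(a⁻¹ • c))
  simp only [LinearIsometryEquiv.coe_refl, id, ← sub_eq_add_neg, ← smul_sub] at h5 h6
  have β0 : β 0 = 1 := h1 0 (by simp)
  have h7 := le_S h5 (K := {z | z = c ∨ 1 / 2 ≤ ‖z - c‖}) (fun z hz => by
    rcases hz with rfl | h
    · simp [β0]
    · refine hR _ ?_
      rw [norm_smul, norm_inv, Real.norm_of_nonneg a0.le, le_inv_mul_iff₀ a0]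
      linarith) (c + a • e) c
  rw [h6] at h7
  simp only [add_sub_cancel_left, inv_smul_smul₀ a0.ne', sub_self, smul_zero, β0,
    h1 (r • e) (by simpa [norm_smul, e1, abs_of_pos hr] using hr1)] at h7
  obtain ⟨s, hs⟩ : ∃ s, s = S {z | z = c ∨ 1 / 2 ≤ ‖z - c‖} (c + a • e) c := ⟨_, rfl⟩
  have s0 : 0 ≤ s := hs ▸ S0 _ _ _
  rw [← hs] at h4 h7
  have sa : 0 < √a := Real.sqrt_pos.2 a0
  obtain ⟨γ, hγ⟩ : ∃ γ, γ = |v 0| * (√r * ‖D β‖) := ⟨_, rfl⟩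
  have γ0 : 0 ≤ γ := by rw [hγ]; positivity
  rw [← hγ] at hw1
  have h8 : l ≤ s * ((√a)⁻¹ * (1 + γ)) := by
    refine le_trans (by rw [hl]; refine le_trans (le_of_eq (by ring)) (le_abs_self _)) (h7.trans ?_)
    rw [Real.sqrt_inv]; gcongr
  have h9 : γ * ((m + l) / 2) < (l - m) / 2 := by rw [hγ]; linarith
  have h10 : √a * l ≤ s * (1 + γ) := by
    rw [mul_left_comm, le_inv_mul_iff₀ sa] at h8; exact h8
  have h11 : √a * ((m + l) / 2) ≤ s := by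
    refine le_of_mul_le_mul_right (le_trans ?_ h10) (by positivity : 0 < 1 + γ)
    rw [mul_assoc]; gcongr; linarith
  linarith

lemma tp {w : E} (hw : ‖w‖ = 1) : ∃ g : E, ‖g‖ = 1 ∧ ⟪w, g⟫ = 0 ∧ ∀ (y : E) (r L : ℝ), 0 < r →
    S {y, y + (r * L) • g} (y + r • w) y ≤ c1 L * √r := by
  obtain ⟨Q, hQ⟩ := rot hw
  refine ⟨Q f, by simp [f1], by rw [← hQ, Q.inner_map_map, ef], fun y r L hr => ?_⟩
  have := S_sim (K := {y, y + (r * L) • Q f}) (K' := {0, L • f}) hr Q y (by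
    rintro z (rfl | rfl) <;> simp [smul_smul, add_comm]) e 0
  rwa [hQ, map_zero, smul_zero, zero_add, add_comm (r • w)] at this

lemma uniq {K : Set E} (hK : IsClosed K) (h0 : (0 : E) ∈ K) {x x' : E} (hx : x ∉ K) (hxx : x ≠ x')
    (c1 : 0 < S K x 0) (c2 : 0 < S K x' 0)
    (h : ∀ η > 0, ∃ u, Ad K u ∧ S K x 0 - η ≤ |u x| ∧ S K x' 0 - η ≤ |u x'|) : False := by
  obtain ⟨ρ, hρ, hb⟩ := Metric.isOpen_iff.1 (hK.union (isClosed_singleton (x := x'))).isOpen_compl x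
    (by simp [hx, hxx])
  obtain ⟨β, hβ, h1, h2⟩ := bump x (half_pos hρ)
  have h3 : ∀ z, z ∈ K ∨ z = x' → β z = 0 := fun z hz => h2 z (by
    by_contra hc
    exact hb (mem_ball_iff_norm.2 (by linarith)) hz)
  obtain ⟨c, hc⟩ : ∃ c, c = S K x 0 := ⟨_, rfl⟩
  obtain ⟨c', hc'⟩ : ∃ c', c' = S K x' 0 := ⟨_, rfl⟩
  rw [← hc] at c1 h
  rw [← hc'] at c2 h
  obtain ⟨A, hA⟩ : ∃ A, A = 1 + c * ‖D β‖ := ⟨_, rfl⟩
  have A1 : 1 ≤ A := by rw [hA]; exact le_add_of_nonneg_right (by positivity)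
  have A4 : 1 ≤ A ^ 4 := one_le_pow₀ A1
  obtain ⟨t, ht⟩ : ∃ t, t = 1 / (56 * A ^ 4) := ⟨_, rfl⟩
  have t0 : 0 < t := by rw [ht]; positivity
  have t2 : t * (56 * A ^ 4) = 1 := by rw [ht]; field_simp
  have t1 : t ≤ 1 := by nlinarith
  obtain ⟨ε, hε⟩ : ∃ ε, ε = t / 100 := ⟨_, rfl⟩
  have ε0 : 0 < ε := by rw [hε]; positivity
  obtain ⟨u, hu, h4, h5⟩ := h (ε * min c c') (by positivity)
  have u0 := hu.2.1 0 h0
  have β0 := h3 0 (Or.inl h0)
  have k1 : ∀ a b : ℝ, a + b = 1 → 1 - ε ≤ ‖a • D u + (b * u x) • D β‖ := fun a b hab => by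
    have := le_S (hu.1.lin hβ a (b * u x)) (K := K)
      (fun z hz => by simp [hu.2.1 z hz, h3 z (Or.inl hz)]) x 0
    rw [D_lin hu.1 hβ, ← hc, u0, β0, h1 x (by simpa using (half_pos hρ).le),
      show a * u x + b * u x * 1 - (a * 0 + b * u x * 0) = (a + b) * u x by ring, hab, one_mul] at this
    refine le_of_mul_le_mul_left (le_trans ?_ (h4.trans this)) c1
    nlinarith [min_le_left c c']
  have k2 : ∀ b : ℝ, 1 - ε ≤ ‖D u + b • D β‖ := fun b => by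
    have := le_S (hu.1.lin hβ 1 b) (K := K)
      (fun z hz => by simp [hu.2.1 z hz, h3 z (Or.inl hz)]) x' 0
    rw [D_lin hu.1 hβ, ← hc', u0, β0, h3 x' (Or.inr rfl), one_smul] at this
    simp only [one_mul, mul_zero, add_zero, sub_zero] at this
    refine le_of_mul_le_mul_left (le_trans ?_ (h5.trans this)) c2
    nlinarith [min_le_right c c']
  have hux : |u x| ≤ c := by
    have := le_S hu.1 hu.2.1 x 0
    rw [u0, sub_zero, ← hc] at this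
    exact this.trans (mul_le_of_le_one_right c1.le hu.2.2)
  have nb : ‖u x • D β‖ ≤ c * ‖D β‖ := by rw [norm_smul, Real.norm_eq_abs]; gcongr
  obtain ⟨g, hg⟩ : ∃ g, g = D u := ⟨_, rfl⟩
  have g1 : ‖g‖ ≤ 1 := hg ▸ hu.2.2
  rw [← hg] at k1 k2
  have v1 := var g (u x • D β - g) g1 ((norm_sub_le _ _).trans (by linarith)) A1 t0 t1 ε0.le
    (by linarith) ((k1 (1 + t) (-t) (by ring)).trans_eq (by congr 1; module))
  have v2 := var g (u x • D β) g1 (by linarith) A1 t0 t1 ε0.le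
    (by linarith) ((k2 (-t * u x)).trans_eq (by congr 1; module))
  have v3 := k1 (1 - t / 2) (t / 2) (by ring)
  have v4 : (1 - t / 2) • g + (t / 2 * u x) • D β = (1 / 2 - t / 4) • g +
      ((1 / 4 : ℝ) • (g + t • (u x • D β - g)) + (1 / 4 : ℝ) • (g + t • u x • D β)) := by module
  rw [v4] at v3
  have v5 := v3.trans ((norm_add_le _ _).trans (add_le_add_right (norm_add_le _ _) _))
  rw [norm_smul, norm_smul, norm_smul, Real.norm_of_nonneg (by linarith),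
    Real.norm_of_nonneg (by norm_num)] at v5
  have v6 : A ^ 4 * t ^ 2 = t / 56 := by linear_combination (t / 56) * t2
  nlinarith

end Pool.Agent.H.MP_e9cdae_an
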