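import Pool.Agent.H.MP_e9cdae_an.B

namespace Pool.Agent.H.MP_f42450_an

open Set Metric MeasureTheory Filter Topology
open scoped ENNReal NNReal RealInnerProductSpace Convolution ContDiff

variable {E : Type} [NormedAddCommGroup E] [InnerProductSpace ℝ E] [FiniteDimensional ℝ E]
  [MeasurableSpace E] [BorelSpace E] {p : ℝ}

lemma start2 (hp : 1 < p) {e : E} (he : ‖e‖ = 1) {u : E → ℝ} (hu : Continuous u)
    (hs : HasCompactSupport u) {G0 : E → E} (hG0 : AEStronglyMeasurable G0) (hW0 : WG u G0) {ε : ℝ}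
    (hε : 0 < ε) : ∃ (K : ℝ≥0) (w : E → ℝ), ContDiff ℝ 1 w ∧ HasCompactSupport w ∧
      LipschitzWith K w ∧ (∀ x, |w x - u x| ≤ ε) ∧
      ∀ h, 0 < h → N p h w ≤ ENNReal.ofReal (h ^ p) * (kap p e * ∫⁻ x, ‖G0 x‖ₑ ^ p) := by
  obtain ⟨G, hG, hGG⟩ := hG0
  have hW : WG u G := fun φ h1 h2 z => (hW0 φ h1 h2 z).trans (by
    congr 1
    exact integral_congr_ae (hGG.mono fun x hx => by simp [hx]))
  rw [lintegral_congr_ae (g := fun x => ‖G x‖ₑ ^ p) (hGG.mono fun x hx => by simp [hx])]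
  replace hG := hG.measurable
  obtain ⟨δ, hδ, H⟩ := Metric.uniformContinuous_iff.1 (hs.uniformContinuous_of_continuous hu) ε hε
  obtain ⟨φ, hφ⟩ : ∃ φ : ContDiffBump (0 : E), φ.rOut = δ := ⟨⟨δ / 2, δ, by positivity, by linarith⟩, rfl⟩
  obtain ⟨η, hη⟩ : ∃ η, η = φ.normed volume := ⟨_, rfl⟩
  have hηs : ContDiff ℝ ∞ η := hη ▸ φ.contDiff_normed
  have hη1 : ContDiff ℝ 1 η := hη ▸ φ.contDiff_normed
  have hηc : HasCompactSupport η := hη ▸ φ.hasCompactSupport_normed
  have hη0 : ∀ x, 0 ≤ η x := hη ▸ φ.nonneg_normed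
  have hηi : ∫⁻ x, ENNReal.ofReal (η x) = 1 := by
    rw [← ofReal_integral_eq_lintegral_ofReal (hη1.continuous.integrable_of_hasCompactSupport hηc)
      (Eventually.of_forall hη0), hη, φ.integral_normed, ENNReal.ofReal_one]
  obtain ⟨w, hw⟩ : ∃ w, w = u ⋆[(ContinuousLinearMap.lsmul ℝ ℝ).flip, volume] η := ⟨_, rfl⟩
  have hul := hu.locallyIntegrable (μ := volume)
  have hw1 : ContDiff ℝ 1 w := hw ▸ hηc.contDiff_convolution_right _ hul hη1
  obtain ⟨K, hK⟩ := ContDiff.lipschitzWith_of_hasCompactSupport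
    (hw ▸ hs.convolution _ hηc : HasCompactSupport w) hw1 (by simp)
  have hd : ∀ x z, fderiv ℝ w x z = ∫ y, ⟪G y, z⟫ * η (x - y) := by
    intro x z
    rw [hw, (hηc.hasFDerivAt_convolution_right _ hul hη1 x).fderiv,
      convolution_precompR_apply _ hul (hηc.fderiv ℝ) (hη1.continuous_fderiv (by simp)),
      convolution_def]
    have h1 := hW (fun y => η (x - y)) (hηs.comp (contDiff_const.sub contDiff_id))
      (hηc.comp_homeomorph (Homeomorph.subLeft x)) z
    have h2 : ∀ y, fderiv ℝ (fun y => η (x - y)) y z = -fderiv ℝ η (x - y) z := by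
      intro y
      have := ((hη1.differentiable (by simp)) (x - y)).hasFDerivAt.comp y
        ((hasFDerivAt_id y).const_sub x)
      rw [show (fun y => η (x - y)) = η ∘ HSub.hSub x from rfl, this.fderiv]
      simp
    simp only [h2, mul_neg, integral_neg, neg_inj] at h1
    rw [← h1]
    simp [mul_comm]
  have hm : ∀ z : E, Measurable fun y => ‖⟪G y, z⟫‖ₑ := fun z =>
    (hG.inner_const (𝕜 := ℝ)).enorm
  have hρ : Measurable fun q : E × E => ENNReal.ofReal (η (q.1 - q.2)) :=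
    (Continuous.measurable (by have := hη1.continuous; fun_prop)).ennreal_ofReal
  have h3 : ∀ x z, ‖fderiv ℝ w x z‖ₑ ^ p ≤
      ∫⁻ y, ENNReal.ofReal (η (x - y)) * ‖⟪G y, z⟫‖ₑ ^ p := by
    intro x z
    have hρx : Measurable fun y => ENNReal.ofReal (η (x - y)) :=
      hρ.comp (measurable_const.prodMk measurable_id)
    have : IsProbabilityMeasure (volume.withDensity fun y => ENNReal.ofReal (η (x - y))) := ⟨by
      rw [withDensity_apply _ MeasurableSet.univ, Measure.restrict_univ,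
        lintegral_sub_left_eq_self (fun y => ENNReal.ofReal (η y)), hηi]⟩
    have h4 := jen (volume.withDensity fun y => ENNReal.ofReal (η (x - y))) hp (hm z).aemeasurable
    rw [lintegral_withDensity_eq_lintegral_mul _ hρx (hm z),
      lintegral_withDensity_eq_lintegral_mul _ hρx ((hm z).pow_const p)] at h4
    refine le_trans (ENNReal.rpow_le_rpow ?_ (by linarith)) h4
    rw [hd]
    refine (enorm_integral_le_lintegral_enorm _).trans (le_of_eq (lintegral_congr fun y => ?_))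
    rw [enorm_mul, Pi.mul_apply, mul_comm, Real.enorm_of_nonneg (hη0 _)]
  have h4 : ∀ z, ∫⁻ x, ‖w (x + z) - w x‖ₑ ^ p ≤ ∫⁻ y, ‖⟪G y, z⟫‖ₑ ^ p := by
    intro z
    refine (diffq hp hw1 z).trans ((lintegral_mono fun x => h3 x z).trans (le_of_eq ?_))
    rw [lintegral_lintegral_swap (hρ.mul (((hm z).pow_const p).comp measurable_snd)).aemeasurable]
    refine lintegral_congr fun y => ?_
    have hρy : Measurable fun x => ENNReal.ofReal (η (x - y)) :=
      hρ.comp (measurable_id.prodMk measurable_const)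
    rw [lintegral_mul_const _ hρy, lintegral_sub_right_eq_self (fun y => ENNReal.ofReal (η y)), hηi,
      one_mul]
  refine ⟨K, w, hw1, hw ▸ hs.convolution _ hηc, hK, fun x => ?_, fun h hh => ?_⟩
  · rw [hw, convolution_flip, hη, ← Real.dist_eq]
    exact φ.dist_normed_convolution_le hu.aestronglyMeasurable fun y hy =>
      (H (by rwa [mem_ball, hφ] at hy)).le
  · rw [N, lintegral_prod_symm _ (N_meas p h hK.continuous).aemeasurable]
    refine (lintegral_mono fun ζ => h4 (h • ζ)).trans (le_of_eq ?_)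
    rw [lintegral_lintegral_swap (Measurable.aemeasurable (Measurable.pow_const (Measurable.enorm
      (Measurable.inner (𝕜 := ℝ) (hG.comp measurable_snd) (measurable_fst.const_smul h))) p)),
      mul_comm (kap p e), ← mul_assoc, ← lintegral_const_mul _ (hG.enorm.pow_const p),
      ← lintegral_mul_const _ ((hG.enorm.pow_const p).const_mul _)]
    refine lintegral_congr fun y => ?_
    have h5 := kap_eq (by linarith : 0 < p) he (h • G y)
    rw [enorm_smul, ENNReal.mul_rpow_of_nonneg _ _ (by linarith), Real.enorm_of_nonneg hh.le,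
      ENNReal.ofReal_rpow_of_pos hh] at h5
    rw [← h5, kap]
    simp only [inner_smul_right, real_inner_smul_left]

end Pool.Agent.H.MP_f42450_an

namespace Pool.Agent.H.MP_e9cdae_an

open Set Metric MeasureTheory Filter Topology
open scoped ENNReal NNReal RealInnerProductSpace ContDiff
open MP_f42450_an (WG)

lemma en4 {G : E → E} (hG : MemLp G 4 volume) :
    ∫⁻ x, ‖G x‖ₑ ^ (4 : ℝ) = ENNReal.ofReal (‖hG.toLp G‖ ^ 4) := by
  rw [lintegral_rpow_enorm_eq_rpow_eLpNorm' (by norm_num), Lp.norm_toLp,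
    ENNReal.ofReal_pow ENNReal.toReal_nonneg, ENNReal.ofReal_toReal hG.2.ne,
    eLpNorm_eq_eLpNorm' (by norm_num) (by norm_num)]
  norm_num

lemma apx {U : E → ℝ} {G : E → E} (hU : Continuous U) (hs : HasCompactSupport U)
    (hG : MemLp G 4 volume) (hW : WG U G) {K : Set E} (hK : ∀ z ∈ K, U z = 0) {ε : ℝ} (hε : 0 < ε) :
    ∃ w, C w ∧ (∀ z ∈ K, w z = 0) ∧ ‖D w‖ ≤ ‖hG.toLp G‖ ∧ ∀ x, |w x - U x| ≤ 3 * ε := by
  obtain ⟨k, w, h1, h2, h3, h4, h5⟩ := MP_f42450_an.start2 (p := 4) (by norm_num) e1 hU hs hG.1 hW hε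
  have hw : C w := ⟨h1, h2⟩
  have h6 := MP_f42450_an.fin_en (by norm_num) e1 h3 h5
  rw [en4 hG, en4 hw.mem, ENNReal.ofReal_le_ofReal_iff (by positivity),
    pow_le_pow_iff_left₀ (norm_nonneg _) (norm_nonneg _) (by norm_num)] at h6
  obtain ⟨v, hv, h7, h8, h9⟩ := hw.tr hε
  refine ⟨v, hv, fun z hz => h8 z (by simpa [hK z hz] using h4 z), h7.trans ?_, fun x => ?_⟩
  · rwa [D, dif_pos hw.mem]
  · linarith [abs_sub_le (v x) (w x) (U x), h9 x, h4 x]

lemma weak {U : E → ℝ} {G : E → E} (hU : Continuous U) (hs : HasCompactSupport U)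
    (hG : MemLp G 4 volume) (hW : WG U G) {K : Set E} (hK : ∀ z ∈ K, U z = 0) (h0 : (0 : E) ∈ K)
    (x : E) : |U x| ≤ S K x 0 * ‖hG.toLp G‖ := by
  refine le_of_forall_pos_le_add fun ε hε => ?_
  obtain ⟨w, h1, h2, h3, h4⟩ := apx hU hs hG hW hK (ε := ε / 3) (by positivity)
  have h5 := le_S h1 h2 x 0
  rw [h2 0 h0, sub_zero] at h5
  have h6 := mul_le_mul_of_nonneg_left h3 (S0 K x 0)
  have h7 := abs_sub_abs_le_abs_sub (U x) (w x)
  rw [abs_sub_comm] at h7
  linarith [h4 x]

lemma exw {K : Set E} (h0 : (0 : E) ∈ K) {x : E} (hc : 0 < S K x 0) : ∃ (U : E → ℝ) (G : V),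
    Continuous U ∧ ‖G‖ ≤ 1 ∧ WG U G ∧ (∀ z ∈ K, U z = 0) ∧ S K x 0 ≤ U x := by
  have h1 : ∀ k : ℕ, ∃ u, Ad K u ∧ S K x 0 - 1 / ((k : ℝ) + 1) < u x - u 0 := fun k =>
    S_ex K x 0 (sub_lt_self _ (by positivity))
  choose u hu h1 using h1
  have hM := M0
  have u0 : ∀ k, u k 0 = 0 := fun k => (hu k).2.1 0 h0
  have h2 : CauchySeq fun k => D (u k) := Metric.cauchySeq_iff'.2 fun ε hε => by
    obtain ⟨η, hη, H⟩ := cl K x 0 hc (half_pos hε)
    obtain ⟨N, hN⟩ := exists_nat_one_div_lt hη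
    refine ⟨N, fun k hk => ?_⟩
    rw [dist_eq_norm]
    have h3 := Nat.one_div_le_one_div (α := ℝ) hk
    exact (H _ _ (hu k) (hu N) (by linarith [h1 k]) (by linarith [h1 N])).trans_lt (half_lt_self hε)
  obtain ⟨G, hG⟩ := cauchySeq_tendsto_of_complete h2
  have h3 : ∀ z, ∃ a, Tendsto (fun k => u k z) atTop (𝓝 a) := fun z =>
    cauchySeq_tendsto_of_complete (Metric.cauchySeq_iff'.2 fun ε hε => by
      obtain ⟨N, hN⟩ := Metric.cauchySeq_iff'.1 h2 (ε / (M * √‖z‖ + 1)) (by positivity)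
      refine ⟨N, fun k hk => ?_⟩
      have h4 := (D_sub (hu k).1 (hu N).1).1.mor z 0
      have h5 := hN k hk
      rw [dist_eq_norm, lt_div_iff₀ (by positivity)] at h5
      rw [(D_sub (hu k).1 (hu N).1).2, u0, u0, sub_zero, sub_zero, sub_zero] at h4
      rw [Real.dist_eq]
      nlinarith [norm_nonneg (D (u k) - D (u N))])
  choose U hU using h3
  have h4 : ∀ a b, |U a - U b| ≤ M * √‖a - b‖ := fun a b =>
    le_of_tendsto' ((hU a).sub (hU b)).abs fun k => (hu k).mor a b
  refine ⟨U, G, continuous_iff_continuousAt.2 fun b => ?_, le_of_tendsto' hG.norm fun k => (hu k).2.2,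
    fun φ hφ hs z => ?_, fun z hz => ?_, ?_⟩
  · refine tendsto_iff_dist_tendsto_zero.2 (squeeze_zero (fun _ => dist_nonneg) (fun a => h4 a b) ?_)
    simpa using (show Continuous fun a : E => M * √‖a - b‖ by fun_prop).tendsto b
  · have hd : Continuous fun y => fderiv ℝ φ y z :=
      (hφ.continuous_fderiv (by simp)).clm_apply continuous_const
    have l1 : Tendsto (fun k => ∫ y, u k y * fderiv ℝ φ y z) atTop (𝓝 (∫ y, U y * fderiv ℝ φ y z)) := by
      refine tendsto_integral_of_dominated_convergence (fun y => M * √‖y‖ * |fderiv ℝ φ y z|)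
        (fun k => ((hu k).1.1.continuous.mul hd).aestronglyMeasurable)
        (Continuous.integrable_of_hasCompactSupport (by fun_prop)
          ((hs.fderiv_apply ℝ z).abs.mul_left)) (fun k => Eventually.of_forall fun y => ?_)
        (Eventually.of_forall fun y => (hU y).mul_const _)
      have := (hu k).mor y 0
      rw [u0, sub_zero, sub_zero] at this
      rw [norm_mul, Real.norm_eq_abs, Real.norm_eq_abs]
      gcongr
    have : Fact (1 ≤ (1 - (4 : ℝ≥0∞)⁻¹)⁻¹) := by simp [fact_iff]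
    have : ENNReal.HolderConjugate 4 (1 - (4 : ℝ≥0∞)⁻¹)⁻¹ :=
      ENNReal.HolderConjugate.inv_one_sub_inv' (by norm_num)
    have hm : MemLp φ (1 - (4 : ℝ≥0∞)⁻¹)⁻¹ volume := hφ.continuous.memLp_of_hasCompactSupport hs
    obtain ⟨P, hP⟩ : ∃ P : V →L[ℝ] ℝ, ∀ H : V, P H = ∫ y, ⟪H y, z⟫ * φ y :=
      ⟨(((ContinuousLinearMap.mul ℝ ℝ).comp (innerSL ℝ z)).lpPairing volume 4 _).flip (hm.toLp φ),
        fun H => by
          rw [ContinuousLinearMap.flip_apply, ContinuousLinearMap.lpPairing_eq_integral]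
          exact integral_congr_ae (hm.coeFn_toLp.mono fun y hy => by simp [hy, real_inner_comm])⟩
    refine tendsto_nhds_unique l1 ?_
    rw [← hP]
    refine ((P.continuous.tendsto G).comp hG).neg.congr fun k => ?_
    obtain ⟨k', hk⟩ := ContDiff.lipschitzWith_of_hasCompactSupport (hu k).1.2 (hu k).1.1 (by simp)
    rw [MP_f42450_an.fin_wg hk φ hφ hs z, Function.comp_apply, hP]
    congr 1
    exact integral_congr_ae ((hu k).1.ae.mono fun y hy => by simp only [hy])
  · exact tendsto_nhds_unique (hU z) (by simpa [fun k => (hu k).2.1 z hz] using tendsto_const_nhds)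
  · have := tendsto_one_div_add_atTop_nhds_zero_nat.const_sub (S K x 0)
    rw [sub_zero] at this
    exact le_of_tendsto_of_tendsto' this (hU x) fun k => by linarith [h1 k, u0 k]

end Pool.Agent.H.MP_e9cdae_an
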