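import Pool.Agent.H.MP_e9cdae_an.C

namespace Pool.Agent.H.MP_e9cdae_an

open Set Metric MeasureTheory Filter Topology
open scoped ENNReal NNReal RealInnerProductSpace ContDiff

def Kh (s t : ℝ) : Set E := {z | ‖z‖ ≤ s ∨ ‖z - e‖ ≤ t ∨ 2 ≤ ‖z‖}

lemma Kc (s t : ℝ) : IsClosed (Kh s t) :=
  (isClosed_le continuous_norm continuous_const).union
    ((isClosed_le (continuous_id.sub continuous_const).norm continuous_const).union
    (isClosed_le continuous_const continuous_norm))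

lemma K0 {s : ℝ} (hs : 0 < s) (t : ℝ) : (0 : E) ∈ Kh s t := Or.inl (by simpa using hs.le)

lemma S_mono {K K' : Set E} (h : K' ⊆ K) (x y : E) : S K x y ≤ S K' x y :=
  S_le fun _ hu => Ad.le ⟨hu.1, fun z hz => hu.2.1 z (h hz), hu.2.2⟩ x y

lemma pyth {w g : E} (hw : ‖w‖ = 1) (hg : ‖g‖ = 1) (h : ⟪w, g⟫ = 0) (a b : ℝ) :
    ‖a • w + b • g‖ ^ 2 = a ^ 2 + b ^ 2 := by
  rw [norm_add_sq_real, norm_smul, norm_smul, hw, hg, inner_smul_left, inner_smul_right, h]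
  simp

lemma B1 {s t d0 : ℝ} (hs : 0 < s) {x : E} (hx : x ∉ Kh s t) (h0 : 0 < d0)
    (h : d0 ≤ infDist x (Kh s t)) : S (Kh s t) x 0 ≤ c1 (1 + 4 / d0) * √(infDist x (Kh s t)) := by
  obtain ⟨y, hy, hd⟩ := (Kc s t).exists_infDist_eq_dist ⟨0, K0 hs t⟩ x
  rw [hd, dist_eq_norm] at h ⊢
  obtain ⟨w, hw, hxw⟩ := polar x y
  obtain ⟨g, hg, -, H⟩ := tp hw
  have h1 := H y _ (1 + 4 / d0) (h0.trans_le h)
  rw [← hxw] at h1
  refine (S_base x (K0 hs t) hy).trans ((S_mono ?_ x y).trans h1)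
  rintro z (rfl | rfl)
  · exact hy
  refine Or.inr (Or.inr ?_)
  have h2 : ‖x‖ < 2 := not_le.1 fun h => hx (Or.inr (Or.inr h))
  have h3 := norm_sub_le (y + (‖x - y‖ * (1 + 4 / d0)) • g) y
  rw [add_sub_cancel_left, norm_smul, hg, mul_one, Real.norm_of_nonneg (by positivity)] at h3
  have h4 := norm_sub_le x (x - y)
  rw [sub_sub_cancel] at h4
  have h5 : 4 ≤ ‖x - y‖ * (4 / d0) := by
    rw [← mul_div_assoc, le_div_iff₀ h0]; linarith
  linarith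

lemma outer {K : Set E} (h0 : (0 : E) ∈ K) (hK : ∀ z : E, 2 ≤ ‖z‖ → z ∈ K) {x : E} (hx : ‖x‖ < 2) :
    S K x 0 ≤ c1 1 * √(2 - ‖x‖) := by
  obtain ⟨w, hw, hxw⟩ := polar x 0
  rw [sub_zero, zero_add] at hxw
  obtain ⟨g, hg, hwg, H⟩ := tp (w := -w) (by simpa using hw)
  have h1 := H ((2 : ℝ) • w) (2 - ‖x‖) 1 (by linarith)
  rw [show (2 : ℝ) • w + (2 - ‖x‖) • -w = ‖x‖ • w by module, ← hxw] at h1
  have h2 : (2 : ℝ) • w ∈ K := hK _ (by simp [norm_smul, hw])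
  refine (S_base x h0 h2).trans ((S_mono ?_ x _).trans h1)
  rintro z (rfl | rfl)
  · exact h2
  refine hK _ (pow_le_pow_left₀ (by norm_num) (le_refl (2 : ℝ)) 2 |> fun _ =>
    (pow_le_pow_iff_left₀ (by norm_num) (norm_nonneg _) two_ne_zero).1 ?_)
  rw [pyth hw hg (by simpa using hwg)]
  exact le_add_of_nonneg_right (by positivity)

lemma disc {K : Set E} (h0 : (0 : E) ∈ K) {c : E} {ρ κ : ℝ} (hρ : 0 < ρ) (hκ : 0 < κ)
    (hK : ∀ z : E, ‖z - c‖ ≤ ρ → z ∈ K) {x : E} (hx : ρ < ‖x - c‖) (hx' : ‖x - c‖ - ρ ≤ κ * ρ) :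
    S K x 0 ≤ (c1 1 + 3 * M * √κ) * √(‖x - c‖ - ρ) := by
  obtain ⟨w, hw, hxw⟩ := polar x c
  obtain ⟨g, hg, hwg, H⟩ := tp hw
  obtain ⟨r, hr⟩ : ∃ r, r = ‖x - c‖ - ρ := ⟨_, rfl⟩
  rw [← hr] at hx' ⊢
  have r0 : 0 < r := by linarith
  have h1 := H (c + ρ • w) r 1 r0
  rw [add_assoc c (ρ • w) (r • w), ← add_smul, show ρ + r = ‖x - c‖ by linarith, ← hxw] at h1
  have h2 : c + ρ • w ∈ K := hK _ (by simp [norm_smul, hw, abs_of_pos hρ])
  have h3 := S_cont (K := K) (K' := {c + ρ • w, c + ρ • w + (r * 1) • g}) (mul_pos hκ r0) (by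
    rintro z (rfl | rfl)
    · exact ⟨_, h2, by simpa using (mul_pos hκ r0).le⟩
    · obtain ⟨y, h3, h4⟩ := exists_dist_le_le (x := c + ρ • w + (r * 1) • g) (z := c)
        (mul_pos hκ r0).le hρ.le (by
          rw [dist_eq_norm, add_assoc, add_sub_cancel_left]
          refine (pow_le_pow_iff_left₀ (norm_nonneg _) (by positivity) two_ne_zero).1 ?_
          rw [pyth hw hg hwg]
          nlinarith [mul_le_mul_of_nonneg_left hx' r0.le, sq_nonneg (κ * r), mul_pos hκ (mul_pos hρ r0)])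
      rw [dist_eq_norm] at h3 h4
      exact ⟨y, hK y h4, h3⟩) (x := x) (x' := x) (by simpa using (mul_pos hκ r0).le) h0 (Or.inl rfl)
  rw [Real.sqrt_mul hκ.le] at h3
  linarith

lemma B2 {s t κ : ℝ} (hs : 0 < s) (ht : 0 < t) (hκ : 0 < κ) {x : E} (hx : x ∉ Kh s t)
    (h1 : infDist x (Kh s t) ≤ κ * s ∨ infDist x (Kh s t) < ‖x‖ - s)
    (h2 : infDist x (Kh s t) ≤ κ * t ∨ infDist x (Kh s t) < ‖x - e‖ - t) :
    S (Kh s t) x 0 ≤ (c1 1 + 3 * M * √κ) * √(infDist x (Kh s t)) := by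
  obtain ⟨y, hy, hd⟩ := (Kc s t).exists_infDist_eq_dist ⟨0, K0 hs t⟩ x
  rw [hd, dist_eq_norm] at h1 h2 ⊢
  have hM := M0
  have hc : 0 ≤ c1 1 := S0 _ _ _
  have hx' := hx
  simp only [Kh, mem_ofPred_eq, not_or, not_le] at hx'
  rcases hy with hy | hy | hy
  · have h3 := norm_sub_norm_le x y
    refine (disc (K0 hs t) (c := 0) hs hκ (fun z hz => Or.inl (by simpa using hz))
      (by simpa using hx'.1) (by rw [sub_zero]; rcases h1 with h | h <;> linarith)).trans ?_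
    rw [sub_zero]; gcongr; linarith
  · have h3 := norm_sub_le_norm_sub_add_norm_sub x y e
    refine (disc (K0 hs t) (c := e) ht hκ (fun z hz => Or.inr (Or.inl hz))
      hx'.2.1 (by rcases h2 with h | h <;> linarith)).trans ?_
    gcongr; linarith
  · have h3 := norm_sub_norm_le y x
    rw [norm_sub_rev] at h3
    refine (outer (K0 hs t) (fun z hz => Or.inr (Or.inr hz)) hx'.2.2).trans ?_
    gcongr
    · exact le_add_of_nonneg_right (by positivity)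
    · linarith

lemma haus {s t s' t' δ : ℝ} (hs : 0 < s) (ht : 0 < t) (hδ : 0 < δ) (h1 : s' ≤ s + δ) (h2 : t' ≤ t + δ) :
    ∀ z ∈ Kh s' t', ∃ y ∈ Kh s t, ‖z - y‖ ≤ δ := by
  rintro z (h | h | h)
  · obtain ⟨y, h3, h4⟩ := exists_dist_le_le (x := z) (z := 0) hδ.le hs.le (by simpa using h.trans h1)
    exact ⟨y, Or.inl (by simpa using h4), by rwa [← dist_eq_norm]⟩
  · obtain ⟨y, h3, h4⟩ := exists_dist_le_le (x := z) (z := e) hδ.le ht.le
      (by rw [dist_eq_norm]; exact h.trans h2)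
    exact ⟨y, Or.inr (Or.inl (by rwa [← dist_eq_norm])), by rwa [← dist_eq_norm]⟩
  · exact ⟨z, Or.inr (Or.inr h), by simpa using hδ.le⟩

lemma jc {P : Type} [TopologicalSpace P] {s t : P → ℝ} (hs : Continuous s) (ht : Continuous t)
    (s0 : ∀ θ, 0 < s θ) (t0 : ∀ θ, 0 < t θ) (F : Set E → E → ℝ)
    (hF : ∀ ε > 0, ∃ δ > 0, ∀ (K K' : Set E) (x x' : E), (0 : E) ∈ K → (0 : E) ∈ K' →
      (∀ z ∈ K', ∃ y ∈ K, ‖z - y‖ ≤ δ) → ‖x - x'‖ ≤ δ → F K x < F K' x' + ε) :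
    Continuous fun q : P × E => F (Kh (s q.1) (t q.1)) q.2 := by
  refine continuous_iff_continuousAt.2 fun q => Metric.tendsto_nhds.2 fun ε hε => ?_
  obtain ⟨δ, hδ, H⟩ := hF ε hε
  filter_upwards [Metric.tendsto_nhds.1 ((hs.comp continuous_fst).tendsto q) δ hδ,
    Metric.tendsto_nhds.1 ((ht.comp continuous_fst).tendsto q) δ hδ,
    Metric.tendsto_nhds.1 (continuous_snd.tendsto q) δ hδ] with p h1 h2 h3
  rw [Real.dist_eq, abs_lt] at h1 h2 ⊢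
  rw [dist_eq_norm] at h3
  simp only [Function.comp_apply] at h1 h2
  have h4 := H _ _ p.2 q.2 (K0 (s0 _) _) (K0 (s0 _) _) (haus (s0 p.1) (t0 p.1) hδ (s' := s q.1)
    (t' := t q.1) (by linarith) (by linarith)) h3.le
  have h5 := H _ _ q.2 p.2 (K0 (s0 _) _) (K0 (s0 _) _) (haus (s0 q.1) (t0 q.1) hδ (s' := s p.1)
    (t' := t p.1) (by linarith) (by linarith)) (by rw [norm_sub_rev]; exact h3.le)
  constructor <;> linarith

theorem geo : ∃ (s t m : ℝ) (x y : E), 0 < s ∧ s ≤ 1 / 4 ∧ 0 < t ∧ t ≤ 1 / 4 ∧ 0 < m ∧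
    x ∉ Kh s t ∧ y ∉ Kh s t ∧ ‖x‖ ≠ ‖y‖ ∧
    (∀ z, z ∉ Kh s t → S (Kh s t) z 0 ≤ m * √(infDist z (Kh s t))) ∧
    m * √(infDist x (Kh s t)) ≤ S (Kh s t) x 0 ∧ m * √(infDist y (Kh s t)) ≤ S (Kh s t) y 0 := by
  have hM := M0
  obtain ⟨κ, hκ, -, hκ1⟩ := sm (3 * M) (sub_pos.2 (gap one_pos)) one_pos
  obtain ⟨m1, hm1⟩ : ∃ m1, m1 = max (c1 1 + 3 * M * √κ) (c1 (1 + 4 / (1 / 4))) := ⟨_, rfl⟩
  have m1a : c1 1 + 3 * M * √κ ≤ m1 := hm1 ▸ le_max_left _ _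
  have m1b : c1 (1 + 4 / (1 / 4)) ≤ m1 := hm1 ▸ le_max_right _ _
  have m10 : 0 ≤ m1 := (S0 _ _ _).trans m1b
  have m1c : m1 < c0 := hm1 ▸ max_lt (by linarith) (gap (by norm_num))
  obtain ⟨a1, δ, a10, a14, δ0, δ4, H1⟩ := hole m1c
  obtain ⟨d0, hd0⟩ : ∃ d0, d0 = min (κ * δ) (1 / 4) := ⟨_, rfl⟩
  have d00 : 0 < d0 := by rw [hd0]; positivity
  have d01 : d0 ≤ κ * δ := hd0 ▸ min_le_left _ _
  have d02 : d0 ≤ 1 / 4 := hd0 ▸ min_le_right _ _
  obtain ⟨m2, hm2⟩ : ∃ m2, m2 = max m1 (c1 (1 + 4 / d0)) := ⟨_, rfl⟩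
  have m2a : m1 ≤ m2 := hm2 ▸ le_max_left _ _
  have m2b : c1 (1 + 4 / d0) ≤ m2 := hm2 ▸ le_max_right _ _
  obtain ⟨a2, ρ, a20, a24, ρ0, -, H2⟩ := hole (hm2 ▸ max_lt m1c (gap (by positivity)) : m2 < c0)
  obtain ⟨δ', hδ'⟩ : ∃ δ', δ' = min ρ δ := ⟨_, rfl⟩
  have δ'0 : 0 < δ' := by rw [hδ']; positivity
  have δ'1 : δ' ≤ ρ := hδ' ▸ min_le_left _ _
  have δ'2 : δ' ≤ δ := hδ' ▸ min_le_right _ _
  obtain ⟨k, hk⟩ : ∃ k, k = min (κ * δ') (min a1 a2) := ⟨_, rfl⟩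
  have k0 : 0 < k := by rw [hk]; positivity
  have k1 : k ≤ κ * δ' := hk ▸ min_le_left _ _
  have k2 : k ≤ a1 := hk ▸ (min_le_right _ _).trans (min_le_left _ _)
  have k3 : k ≤ a2 := hk ▸ (min_le_right _ _).trans (min_le_right _ _)
  obtain ⟨s, hs⟩ : ∃ s : unitInterval → ℝ, s = fun θ => δ' + θ.1 * (δ - δ') := ⟨_, rfl⟩
  obtain ⟨t, ht⟩ : ∃ t : unitInterval → ℝ, t = fun θ => δ - θ.1 * (δ - δ') := ⟨_, rfl⟩
  have st : ∀ θ, δ' ≤ s θ ∧ s θ ≤ δ ∧ δ' ≤ t θ ∧ t θ ≤ δ := fun θ => by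
    have h1 := mul_nonneg θ.2.1 (sub_nonneg.2 δ'2)
    have h2 := mul_le_of_le_one_left (sub_nonneg.2 δ'2) θ.2.2
    simp only [hs, ht]
    refine ⟨?_, ?_, ?_, ?_⟩ <;> linarith
  have s0 : ∀ θ, 0 < s θ := fun θ => δ'0.trans_le (st θ).1
  have t0 : ∀ θ, 0 < t θ := fun θ => δ'0.trans_le (st θ).2.2.1
  have sc : Continuous s := by rw [hs]; fun_prop
  have tc : Continuous t := by rw [ht]; fun_prop
  obtain ⟨F, hF⟩ : ∃ F : unitInterval → E → ℝ, F = fun θ x =>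
    S (Kh (s θ) (t θ)) x 0 / √(max (infDist x (Kh (s θ) (t θ))) k) := ⟨_, rfl⟩
  have sq0 : ∀ d : ℝ, 0 < √(max d k) := fun d => Real.sqrt_pos.2 (k0.trans_le (le_max_right _ _))
  have Fc : Continuous ↿F := by
    rw [hF]
    refine (jc sc tc s0 t0 (fun K x => S K x 0) fun ε hε => ?_).div
      (((jc sc tc s0 t0 (fun K x => infDist x K) fun ε hε => ?_).max continuous_const).sqrt)
      fun q => (sq0 _).ne'
    · obtain ⟨η, h1, -, h2⟩ := sm (3 * M) hε one_pos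
      exact ⟨η, h1, fun K K' x x' h3 h4 h5 h6 => by linarith [S_cont h1 h5 h6 h3 h4]⟩
    · refine ⟨ε / 3, by positivity, fun K K' x x' _ h4 h5 h6 => ?_⟩
      have : infDist x K - 2 * (ε / 3) ≤ infDist x' K' := (le_infDist ⟨0, h4⟩).2 fun z hz => by
        obtain ⟨y, hy, h7⟩ := h5 z hz
        have h8 := infDist_le_dist_of_mem (x := x) hy
        have h9 := dist_triangle4 x x' z y
        rw [← dist_eq_norm] at h6 h7
        linarith
      linarith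
  have up : ∀ θ x B, 0 ≤ B → (x ∉ Kh (s θ) (t θ) →
      S (Kh (s θ) (t θ)) x 0 ≤ B * √(infDist x (Kh (s θ) (t θ)))) → F θ x ≤ B := by
    intro θ x B hB h
    simp only [hF]
    rw [div_le_iff₀ (sq0 _)]
    by_cases hx : x ∈ Kh (s θ) (t θ)
    · exact ((S_base x (K0 (s0 θ) _) hx).trans (S_le fun u _ => (sub_self _).le)).trans (by positivity)
    · exact (h hx).trans (by gcongr; exact le_max_left _ _)
  have lo : ∀ θ (c : E) (m a : ℝ), 0 ≤ m → k ≤ a → c ∈ Kh (s θ) (t θ) →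
      m * √a < S (Kh (s θ) (t θ)) (c + a • e) c → m < F θ (c + a • e) := by
    intro θ c m a hm ha hc h
    simp only [hF]
    rw [lt_div_iff₀ (sq0 _)]
    refine lt_of_le_of_lt ?_ (h.trans_le (S_base _ hc (K0 (s0 θ) _)))
    gcongr
    refine max_le ((infDist_le_dist_of_mem hc).trans ?_) ha
    simp [norm_smul, e1, abs_of_pos (k0.trans_le ha)]
  have ne1 : ∀ z : E, 1 ≤ ‖z‖ + ‖z - e‖ := fun z => by
    have := norm_sub_le z (z - e)
    rwa [sub_sub_cancel, e1] at this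
  have ne2 : ∀ z : E, ‖z‖ ≤ ‖z - e‖ + 1 := fun z => by
    have := norm_add_le (z - e) e
    rwa [sub_add_cancel, e1] at this
  have z0 : ∀ θ, ∀ ρ, s θ ≤ ρ → ∀ z ∈ Kh (s θ) (t θ), ‖z - 0‖ ≤ ρ ∨ 1 / 2 ≤ ‖z - 0‖ := by
    rintro θ ρ h z (hz | hz | hz) <;> rw [sub_zero]
    · exact Or.inl (hz.trans h)
    · exact Or.inr (by linarith [ne1 z, (st θ).2.2.2])
    · exact Or.inr (by linarith)
  have z1 : ∀ θ, ∀ ρ, t θ ≤ ρ → ∀ z ∈ Kh (s θ) (t θ), ‖z - e‖ ≤ ρ ∨ 1 / 2 ≤ ‖z - e‖ := by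
    rintro θ ρ h z (hz | hz | hz)
    · exact Or.inr (by linarith [ne1 z, (st θ).2.1])
    · exact Or.inl (hz.trans h)
    · exact Or.inr (by linarith [ne2 z])
  have cA : IsCompact (closedBall (0 : E) (1 / 2)) := isCompact_closedBall _ _
  have cB : IsCompact (closedBall (0 : E) 2 \ ball 0 (1 / 2)) :=
    (isCompact_closedBall _ _).diff isOpen_ball
  have pA : ∀ a : ℝ, 0 < a → a ≤ 1 / 4 → 0 + a • e ∈ closedBall (0 : E) (1 / 2) := fun a h1 h2 => by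
    rw [mem_closedBall_zero_iff, zero_add, norm_smul, e1, Real.norm_of_nonneg h1.le]; linarith
  have pB : e + a2 • e ∈ closedBall (0 : E) 2 \ ball 0 (1 / 2) := by
    rw [mem_diff, mem_closedBall_zero_iff, mem_ball_zero_iff, show e + a2 • e = (1 + a2) • e by module,
      norm_smul, e1, Real.norm_of_nonneg (by linarith)]
    constructor <;> linarith
  have Fθ : ∀ θ, Continuous (F θ) := fun θ => Fc.comp (Continuous.prodMk_right θ)
  have eA := fun θ => cA.exists_sSup_image_eq_and_ge ⟨_, pA _ a10 a14⟩ (Fθ θ).continuousOn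
  have eB := fun θ => cB.exists_sSup_image_eq_and_ge ⟨_, pB⟩ (Fθ θ).continuousOn
  have u2 : ∀ θ x, (κ * δ ≤ κ * s θ ∨ 1 / 2 ≤ ‖x‖) → (κ * δ ≤ κ * t θ ∨ 1 / 2 ≤ ‖x - e‖) →
      F θ x ≤ m2 := fun θ x h1 h2 => up θ x m2 (m10.trans m2a) fun hx => by
    rcases le_or_gt d0 (infDist x (Kh (s θ) (t θ))) with h | h
    · exact (B1 (s0 θ) hx d00 h).trans (by gcongr)
    · refine (B2 (s0 θ) (t0 θ) hκ hx (h1.imp (fun _ => by linarith) fun _ => by linarith [(st θ).2.1])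
        (h2.imp (fun _ => by linarith) fun _ => by linarith [(st θ).2.2.2])).trans ?_
      gcongr; linarith
  obtain ⟨θ, hθ⟩ := intermediate_value_univ₂ (a := 0) (b := 1) (cB.continuous_sSup Fc)
    (cA.continuous_sSup Fc) (by
      obtain ⟨x, -, h1, h2⟩ := eA 0
      obtain ⟨y, hy, h3, -⟩ := eB 0
      rw [h1, h3]
      refine (u2 0 y (Or.inr (by simpa using hy.2)) (Or.inl (by simp [ht]))).trans
        (le_trans (lo 0 0 m2 a2 (m10.trans m2a) k3 (K0 (s0 0) _) (H2 _ _ (K0 (s0 0) _)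
          (z0 0 ρ (by simpa [hs] using δ'1)))).le (h2 _ (pA _ a20 a24)))) (by
      obtain ⟨x, hx, h1, -⟩ := eA 1
      obtain ⟨y, -, h3, h2⟩ := eB 1
      rw [h1, h3]
      have he : e ∈ Kh (s 1) (t 1) := Or.inr (Or.inl (by simpa using (t0 1).le))
      refine (u2 1 x (Or.inl (by simp [hs])) (Or.inr (by
        linarith [ne1 x, mem_closedBall_zero_iff.1 hx]))).trans
        (le_trans (lo 1 e m2 a2 (m10.trans m2a) k3 he (H2 _ _ he
          (z1 1 ρ (by simpa [ht] using δ'1)))).le (h2 _ pB)))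
  obtain ⟨x, hx, h1, h2⟩ := eA θ
  obtain ⟨y, hy, h3, h4⟩ := eB θ
  rw [h1, h3] at hθ
  have h5 : m1 < F θ x := (lo θ 0 m1 a1 m10 k2 (K0 (s0 θ) _) (H1 _ _ (K0 (s0 θ) _)
    (z0 θ δ (st θ).2.1))).trans_le (h2 _ (pA _ a10 a14))
  have sm' : ∀ z, z ∉ Kh (s θ) (t θ) → infDist z (Kh (s θ) (t θ)) ≤ k →
      S (Kh (s θ) (t θ)) z 0 ≤ m1 * √(infDist z (Kh (s θ) (t θ))) := fun z hz h =>
    (B2 (s0 θ) (t0 θ) hκ hz (Or.inl (h.trans (k1.trans (by gcongr; exact (st θ).1))))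
      (Or.inl (h.trans (k1.trans (by gcongr; exact (st θ).2.2.1))))).trans (by gcongr)
  have mx : ∀ z, F θ z = F θ x → z ∉ Kh (s θ) (t θ) ∧
      F θ x * √(infDist z (Kh (s θ) (t θ))) ≤ S (Kh (s θ) (t θ)) z 0 := fun z hz => by
    refine ⟨fun h => ?_, ?_⟩
    · linarith [up θ z m1 m10 fun h' => absurd h h']
    · rcases le_total (infDist z (Kh (s θ) (t θ))) k with h | h
      · linarith [up θ z m1 m10 fun h' => sm' z h' h]
      · rw [← hz]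
        simp only [hF]
        rw [max_eq_left h, div_mul_cancel₀ _ (Real.sqrt_pos.2 (k0.trans_le h)).ne']
  refine ⟨s θ, t θ, F θ x, x, y, s0 θ, by linarith [(st θ).2.1], t0 θ, by linarith [(st θ).2.2.2],
    m10.trans_lt h5, (mx x rfl).1, (mx y hθ).1, fun h => ?_, fun z hz => ?_, (mx x rfl).2, (mx y hθ).2⟩
  · have h6 : ‖x‖ = 1 / 2 := le_antisymm (mem_closedBall_zero_iff.1 hx) (h ▸ by simpa using hy.2)
    refine absurd h5 (not_lt.2 (up θ x m1 m10 fun hx' => (B1 (s0 θ) hx' (d0 := 1 / 4) (by norm_num)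
      ((le_infDist ⟨0, K0 (s0 θ) _⟩).2 ?_)).trans (by gcongr)))
    rintro z (hz | hz | hz) <;> rw [dist_eq_norm]
    · linarith [norm_sub_norm_le x z, (st θ).2.1]
    · linarith [norm_sub_le_norm_sub_add_norm_sub x z e, (st θ).2.2.2, ne1 x]
    · linarith [norm_sub_norm_le z x, norm_sub_rev x z]
  · rcases le_total (infDist z (Kh (s θ) (t θ))) k with h | h
    · exact (sm' z hz h).trans (by gcongr)
    · have h6 : F θ z ≤ F θ x := by
        by_cases h7 : z ∈ ball (0 : E) (1 / 2)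
        · exact h2 z (ball_subset_closedBall h7)
        · exact hθ ▸ h4 z ⟨mem_closedBall_zero_iff.2 (not_le.1 fun h => hz (Or.inr (Or.inr h))).le, h7⟩
      rw [← div_le_iff₀ (Real.sqrt_pos.2 (k0.trans_le h))]
      refine le_trans (le_of_eq ?_) h6
      simp only [hF]
      rw [max_eq_left h]

lemma conn {s t : ℝ} (hs : s ≤ 1 / 4) (ht : t ≤ 1 / 4) : IsConnected (Kh s t)ᶜ := by
  have hm : ∀ z : E, 3 / 2 ≤ ‖z‖ → ‖z‖ < 2 → z ∈ (Kh s t)ᶜ := fun z h1 h2 => by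
    have := norm_add_le (z - e) e
    rw [sub_add_cancel, e1] at this
    rintro (h | h | h) <;> linarith
  have hA : IsPreconnected ((fun p : ℝ × E => p.1 • p.2) '' (Ico (3 / 2) 2 ×ˢ sphere 0 1)) :=
    (isPreconnected_Ico.prod (isPreconnected_sphere (by rw [← Module.finrank_eq_rank]; simp) 0 1)).image _ (by fun_prop)
  have hA' : (fun p : ℝ × E => p.1 • p.2) '' (Ico (3 / 2) 2 ×ˢ sphere 0 1) =
      {z | 3 / 2 ≤ ‖z‖ ∧ ‖z‖ < 2} := by
    ext z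
    constructor
    · rintro ⟨p, ⟨h1, h2⟩, rfl⟩
      rw [mem_ofPred_eq, norm_smul, mem_sphere_zero_iff_norm.1 h2, mul_one,
        Real.norm_of_nonneg (by linarith [h1.1])]
      exact h1
    · intro h
      obtain ⟨w, hw, hz⟩ := polar z 0
      exact ⟨(‖z‖, w), ⟨h, by simpa using hw⟩, by simpa using hz.symm⟩
  rw [hA'] at hA
  have h0 : (3 / 2 : ℝ) • e ∈ {z : E | 3 / 2 ≤ ‖z‖ ∧ ‖z‖ < 2} := by
    rw [mem_ofPred_eq, norm_smul, e1]; norm_num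
  refine ⟨⟨_, hm _ h0.1 h0.2⟩, isPreconnected_of_forall ((3 / 2 : ℝ) • e) fun x hx => ?_⟩
  have hx' := hx
  simp only [Kh, mem_compl_iff, mem_ofPred_eq, not_or, not_le] at hx'
  rcases le_total (3 / 2) ‖x‖ with h | h
  · exact ⟨_, fun z hz => hm z hz.1 hz.2, h0, ⟨h, hx'.2.2⟩, hA⟩
  obtain ⟨g, g1, g2, g3⟩ : ∃ g : E, ‖g‖ = 1 ∧ ⟪e, g⟫ = 0 ∧ 0 ≤ ⟪x, g⟫ := by
    rcases le_total 0 ⟪x, f⟫ with h | h
    · exact ⟨f, f1, ef, h⟩
    · exact ⟨-f, by simp [f1], by simp [ef], by simpa using h⟩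
  have mono : ∀ (y : E) (τ : ℝ), 0 ≤ τ → 0 ≤ ⟪y, g⟫ → ‖y‖ ≤ ‖y + τ • g‖ := fun y τ h1 h2 => by
    refine (pow_le_pow_iff_left₀ (norm_nonneg _) (norm_nonneg _) two_ne_zero).1 ?_
    rw [norm_add_sq_real, inner_smul_right]
    nlinarith [mul_nonneg h1 h2, sq_nonneg ‖τ • g‖]
  obtain ⟨τ, hτ, h1⟩ := intermediate_value_Icc (by norm_num : (0 : ℝ) ≤ 3)
    (f := fun τ : ℝ => ‖x + τ • g‖) (by fun_prop) (show (3 / 2 : ℝ) ∈ _ from ⟨by simpa using h, by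
      have := norm_sub_le (x + (3 : ℝ) • g) x
      rw [add_sub_cancel_left, norm_smul, g1] at this
      norm_num at this
      linarith⟩)
  have h1' : ‖x + τ • g‖ = 3 / 2 := h1
  refine ⟨segment ℝ x (x + τ • g) ∪ {z : E | 3 / 2 ≤ ‖z‖ ∧ ‖z‖ < 2}, union_subset ?_
    fun z hz => hm z hz.1 hz.2, Or.inr h0, Or.inl (left_mem_segment _ _ _),
    (convex_segment _ _).isPreconnected.union (x + τ • g) (right_mem_segment _ _ _)
      ⟨h1'.ge, by linarith⟩ hA⟩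
  intro z hz
  have h2 : z ∈ closedBall (0 : E) (3 / 2) := (convex_closedBall _ _).segment_subset
    (mem_closedBall_zero_iff.2 h) (mem_closedBall_zero_iff.2 h1'.le) hz
  rw [segment_eq_image'] at hz
  obtain ⟨a, ha, rfl⟩ := hz
  simp only [add_sub_cancel_left, smul_smul] at h2 ⊢
  have h3 := mono x _ (mul_nonneg ha.1 hτ.1) g3
  have h4 := mono (x - e) _ (mul_nonneg ha.1 hτ.1) (by rw [inner_sub_left, g2, sub_zero]; exact g3)
  rw [sub_add_eq_add_sub] at h4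
  rw [mem_closedBall_zero_iff] at h2
  rintro (h | h | h) <;> linarith [hx'.1, hx'.2.1]

lemma rig {s t r : ℝ} (hs : s ≤ 1 / 4) (ht : t ≤ 1 / 4) (hr : 0 < r) (Q : E ≃ₗᵢ[ℝ] E) (b : E)
    (h : (fun x => r • Q x + b) '' (Kh s t)ᶜ = (Kh s t)ᶜ) : r = 1 ∧ b = 0 := by
  have hm : ∀ a : ℝ, 3 / 2 ≤ a → a < 2 → a • e ∈ (Kh s t)ᶜ ∧ -(a • e) ∈ (Kh s t)ᶜ := fun a h1 h2 => by
    have h3 : ∀ z : E, ‖z‖ = a → z ∈ (Kh s t)ᶜ := fun z hz => by
      have := norm_add_le (z - e) e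
      rw [sub_add_cancel, e1] at this
      rintro (h | h | h) <;> linarith
    constructor <;> apply h3 <;> simp [norm_smul, e1] <;> linarith
  have hb : ∀ z ∈ (Kh s t)ᶜ, ‖z‖ < 2 := fun z hz => not_le.1 fun h => hz (Or.inr (Or.inr h))
  have lim : ∀ (φ : ℝ → ℝ) (B : ℝ), Continuous φ → (∀ a, 3 / 2 ≤ a → a < 2 → φ a ≤ B) → φ 2 ≤ B :=
    fun φ B h1 h2 => le_of_tendsto ((h1.tendsto 2).mono_left (nhdsWithin_le_nhds (s := Iio 2)))
      (by filter_upwards [Ico_mem_nhdsLT (by norm_num : (3 / 2 : ℝ) < 2)] with a ha using h2 a ha.1 ha.2)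
  have h1 := lim (fun a => 2 * a) (4 * r) (by fun_prop) fun a h1 h2 => by
    obtain ⟨z, hz, h3⟩ := h.ge (hm a h1 h2).1
    obtain ⟨z', hz', h4⟩ := h.ge (hm a h1 h2).2
    have h5 : r • Q (z - z') = (2 * a) • e := by
      rw [map_sub, smul_sub, eq_sub_of_add_eq h3, eq_sub_of_add_eq h4]; module
    have h6 := congrArg norm h5
    rw [norm_smul, norm_smul, e1, Q.norm_map, Real.norm_of_nonneg hr.le,
      Real.norm_of_nonneg (by linarith)] at h6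
    nlinarith [norm_sub_le z z', hb z hz, hb z' hz']
  have h2 := lim (fun a => (r * a) ^ 2 + ‖b‖ ^ 2) 4 (by fun_prop) fun a h1 h2 => by
    have h3 := hb _ (h.le (mem_image_of_mem _ (hm a h1 h2).1))
    have h4 := hb _ (h.le (mem_image_of_mem _ (hm a h1 h2).2))
    simp only [map_neg, smul_neg] at h3 h4
    rw [← norm_neg, neg_add, neg_neg, ← sub_eq_add_neg] at h4
    have h5 := parallelogram_law_with_norm ℝ (r • Q (a • e)) b
    rw [norm_smul, Q.norm_map, norm_smul, e1, Real.norm_of_nonneg hr.le,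
      Real.norm_of_nonneg (by linarith), mul_one] at h5
    nlinarith [norm_nonneg (r • Q (a • e) + b), norm_nonneg (r • Q (a • e) - b)]
  have r1 : 1 ≤ r := by linarith
  refine ⟨by nlinarith [norm_nonneg b], norm_eq_zero.1 ?_⟩
  nlinarith [norm_nonneg b]

end Pool.Agent.H.MP_e9cdae_an
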